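import Mathlib

/-!
Abstract part: an operator that is, scale by scale, well approximated by a two-modulus periodic
dynamics has very sparse simultaneous projective returns for `T ⊕ 2T`.
-/

set_option autoImplicit false

namespace Pool.Agent.Lib.MP_b6a3e4_an

open scoped ENNReal
open MeasureTheory

section
variable {X : Type} [NormedAddCommGroup X] [NormedSpace ℂ X]

lemma pow_succ_apply (T : X →L[ℂ] X) (j : ℕ) (x : X) : (T ^ (j + 1)) x = T ((T ^ j) x) := by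
  rw [pow_succ']; rfl

lemma pow_add_apply (T : X →L[ℂ] X) (i j : ℕ) (x : X) :
    (T ^ (i + j)) x = (T ^ i) ((T ^ j) x) := by
  rw [pow_add]; rfl

lemma pow_comm_apply (T : X →L[ℂ] X) (i j : ℕ) (x : X) :
    (T ^ j) ((T ^ i) x) = (T ^ i) ((T ^ j) x) := by
  rw [← pow_add_apply, ← pow_add_apply, add_comm]

lemma norm_pow_le {T : X →L[ℂ] X} (hT : ∀ x, ‖T x‖ ≤ 5 * ‖x‖) (j : ℕ) (x : X) :
    ‖(T ^ j) x‖ ≤ 5 ^ j * ‖x‖ := by
  induction j with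
  | zero => simp
  | succ j ih =>
    rw [pow_succ_apply, pow_succ]
    have := hT ((T ^ j) x)
    nlinarith

lemma le_norm_pow {T : X →L[ℂ] X} (hT : ∀ x, ‖x‖ ≤ 5 * ‖T x‖) (j : ℕ) (x : X) :
    ‖x‖ ≤ 5 ^ j * ‖(T ^ j) x‖ := by
  induction j with
  | zero => simp
  | succ j ih =>
    rw [pow_succ_apply, pow_succ]
    have h := hT ((T ^ j) x)
    have h5 : (0 : ℝ) ≤ 5 ^ j := by positivity
    calc ‖x‖ ≤ 5 ^ j * ‖(T ^ j) x‖ := ih
      _ ≤ 5 ^ j * (5 * ‖T ((T ^ j) x)‖) := mul_le_mul_of_nonneg_left h h5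
      _ = _ := by ring

lemma pow_mul_apply_of_periodic {T : X →L[ℂ] X} {D : ℕ} {c : ℂ} {y : X}
    (h : (T ^ D) y = c • y) (m : ℕ) : (T ^ (D * m)) y = c ^ m • y := by
  induction m with
  | zero => simp
  | succ m ih =>
    rw [mul_add, mul_one, pow_add_apply, h, map_smul, ih, smul_smul, pow_succ']

/-- one-modulus periodic vectors have geometric norms -/
lemma gauge_one {T : X →L[ℂ] X} (hT : ∀ x, ‖T x‖ ≤ 5 * ‖x‖) (hT' : ∀ x, ‖x‖ ≤ 5 * ‖T x‖)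
    {D : ℕ} (hD : 0 < D) {r : ℝ} (hr : 1 / 2 ≤ r) (hr' : r ≤ 2) {y : X}
    (h : (T ^ D) y = ((r : ℂ) ^ D) • y) (j : ℕ) :
    ‖(T ^ j) y‖ ≤ 10 ^ D * (‖y‖ * r ^ j) ∧ ‖y‖ * r ^ j ≤ 10 ^ D * ‖(T ^ j) y‖ := by
  have hr0 : 0 < r := by linarith
  obtain ⟨m, i, hi, rfl⟩ : ∃ m i, i < D ∧ j = i + D * m :=
    ⟨j / D, j % D, Nat.mod_lt _ hD, (Nat.mod_add_div j D).symm⟩
  have e1 : ‖(T ^ (i + D * m)) y‖ = r ^ (D * m) * ‖(T ^ i) y‖ := by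
    rw [pow_add_apply, pow_mul_apply_of_periodic h, map_smul, norm_smul, ← pow_mul]
    simp [abs_of_pos hr0]
  have h10 : (10 : ℝ) ^ i ≤ 10 ^ D := pow_le_pow_right₀ (by norm_num) hi.le
  have hp : (0 : ℝ) < r ^ (D * m) := by positivity
  have hy := norm_nonneg y
  have hTy := norm_nonneg ((T ^ i) y)
  rw [e1, pow_add]
  constructor
  · have a1 := norm_pow_le hT i y
    have a2 : (5 : ℝ) ^ i ≤ 10 ^ i * r ^ i := by
      rw [← mul_pow]; exact pow_le_pow_left₀ (by norm_num) (by linarith) i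
    have a3 : (5 : ℝ) ^ i ≤ 10 ^ D * r ^ i :=
      a2.trans (mul_le_mul_of_nonneg_right h10 (by positivity))
    calc r ^ (D * m) * ‖(T ^ i) y‖ ≤ r ^ (D * m) * ((10 ^ D * r ^ i) * ‖y‖) :=
          mul_le_mul_of_nonneg_left (a1.trans (mul_le_mul_of_nonneg_right a3 hy)) hp.le
      _ = _ := by ring
  · have a1 := le_norm_pow hT' i y
    have a2 : r ^ i * 5 ^ i ≤ 10 ^ i := by
      rw [← mul_pow]; exact pow_le_pow_left₀ (by positivity) (by linarith) i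
    have a3 : ‖y‖ * r ^ i ≤ 10 ^ D * ‖(T ^ i) y‖ := by
      calc ‖y‖ * r ^ i ≤ (5 ^ i * ‖(T ^ i) y‖) * r ^ i :=
            mul_le_mul_of_nonneg_right a1 (by positivity)
        _ = (r ^ i * 5 ^ i) * ‖(T ^ i) y‖ := by ring
        _ ≤ 10 ^ D * ‖(T ^ i) y‖ := mul_le_mul_of_nonneg_right (a2.trans h10) hTy
    calc ‖y‖ * (r ^ i * r ^ (D * m)) = (‖y‖ * r ^ i) * r ^ (D * m) := by ring
      _ ≤ (10 ^ D * ‖(T ^ i) y‖) * r ^ (D * m) := mul_le_mul_of_nonneg_right a3 hp.le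
      _ = _ := by ring

/-- `y` splits into a part of modulus `1/2` and a part of modulus `2`, with period `D` -/
def Spl (T : X →L[ℂ] X) (D : ℕ) (y : X) : Prop :=
  ∃ y₁ y₂ : X, y = y₁ + y₂ ∧ (T ^ D) y₁ = (((1 / 2 : ℝ) : ℂ) ^ D) • y₁ ∧
    (T ^ D) y₂ = (((2 : ℝ) : ℂ) ^ D) • y₂

lemma gap_ge {D : ℕ} (hD : 0 < D) : 1 ≤ ‖((2 : ℝ) : ℂ) ^ D - ((1 / 2 : ℝ) : ℂ) ^ D‖ := by
  have : ((2 : ℝ) : ℂ) ^ D - ((1 / 2 : ℝ) : ℂ) ^ D = (((2 : ℝ) ^ D - (1 / 2 : ℝ) ^ D : ℝ) : ℂ) := by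
    push_cast; ring
  rw [this, Complex.norm_real, Real.norm_eq_abs]
  have h1 : (2 : ℝ) ≤ 2 ^ D := by
    calc (2 : ℝ) = 2 ^ 1 := by norm_num
      _ ≤ 2 ^ D := pow_le_pow_right₀ (by norm_num) hD
  have h2 : (1 / 2 : ℝ) ^ D ≤ 1 := pow_le_one₀ (by norm_num) (by norm_num)
  rw [abs_of_nonneg (by linarith)]
  linarith

lemma gauge_two {T : X →L[ℂ] X} (hT : ∀ x, ‖T x‖ ≤ 5 * ‖x‖) (hT' : ∀ x, ‖x‖ ≤ 5 * ‖T x‖)
    {D : ℕ} (hD : 0 < D) {y : X} (h : Spl T D y) :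
    ∃ p q : ℝ, 0 ≤ p ∧ 0 ≤ q ∧ ∀ j : ℕ,
      ‖(T ^ j) y‖ ≤ 100 ^ D * max (p * (1 / 2) ^ j) (q * 2 ^ j) ∧
      max (p * (1 / 2) ^ j) (q * 2 ^ j) ≤ 100 ^ D * ‖(T ^ j) y‖ := by
  obtain ⟨y₁, y₂, rfl, h₁, h₂⟩ := h
  refine ⟨‖y₁‖, ‖y₂‖, norm_nonneg _, norm_nonneg _, fun j => ?_⟩
  have g₁ := gauge_one hT hT' hD (r := 1 / 2) (by norm_num) (by norm_num) h₁ j
  have g₂ := gauge_one hT hT' hD (r := 2) (by norm_num) (by norm_num) h₂ j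
  have h100 : (100 : ℝ) ^ D = 10 ^ D * 10 ^ D := by rw [← mul_pow]; norm_num
  have h10 : (2 : ℝ) ≤ 10 ^ D := by
    calc (2 : ℝ) ≤ 10 ^ 1 := by norm_num
      _ ≤ 10 ^ D := pow_le_pow_right₀ (by norm_num) hD
  have hp10 : (0 : ℝ) < 10 ^ D := by positivity
  have h52 : (5 : ℝ) ^ D + 2 ^ D ≤ 10 ^ D := by
    have a1 : (2 : ℝ) ^ D ≤ 5 ^ D := pow_le_pow_left₀ (by norm_num) (by norm_num) D
    have a2 : (2 : ℝ) ≤ 2 ^ D := by
      calc (2 : ℝ) = 2 ^ 1 := by norm_num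
        _ ≤ 2 ^ D := pow_le_pow_right₀ (by norm_num) hD
    have a3 : (10 : ℝ) ^ D = 2 ^ D * 5 ^ D := by rw [← mul_pow]; norm_num
    have a4 : (0 : ℝ) < 5 ^ D := by positivity
    nlinarith
  set α : ℂ := ((1 / 2 : ℝ) : ℂ) ^ D with hα
  set β : ℂ := ((2 : ℝ) : ℂ) ^ D with hβ
  have hgap : 1 ≤ ‖β - α‖ := gap_ge hD
  have nα : ‖α‖ ≤ 2 ^ D := by
    rw [hα, norm_pow, Complex.norm_real, Real.norm_eq_abs]
    exact pow_le_pow_left₀ (abs_nonneg _) (by norm_num [abs_of_pos]) D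
  have nβ : ‖β‖ ≤ 2 ^ D := by
    rw [hβ, norm_pow, Complex.norm_real, Real.norm_eq_abs]
    exact pow_le_pow_left₀ (abs_nonneg _) (by norm_num [abs_of_pos]) D
  set w := (T ^ j) (y₁ + y₂) with hw
  have hwn := norm_nonneg w
  have key : ∀ γ : ℂ, ‖γ‖ ≤ 2 ^ D → ‖(T ^ D) w - γ • w‖ ≤ 10 ^ D * ‖w‖ := by
    intro γ hγ
    calc ‖(T ^ D) w - γ • w‖ ≤ ‖(T ^ D) w‖ + ‖γ • w‖ := norm_sub_le _ _
      _ ≤ 5 ^ D * ‖w‖ + 2 ^ D * ‖w‖ := by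
          rw [norm_smul]
          exact add_le_add (norm_pow_le hT D w) (mul_le_mul_of_nonneg_right hγ hwn)
      _ = (5 ^ D + 2 ^ D) * ‖w‖ := by ring
      _ ≤ _ := mul_le_mul_of_nonneg_right h52 hwn
  have hTw : (T ^ D) w = α • (T ^ j) y₁ + β • (T ^ j) y₂ := by
    rw [hw, pow_comm_apply, map_add, h₁, h₂, map_add, map_smul, map_smul]
  have hw' : w = (T ^ j) y₁ + (T ^ j) y₂ := by rw [hw, map_add]
  have b₂ : ‖(T ^ j) y₂‖ ≤ 10 ^ D * ‖w‖ := by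
    have e : (T ^ D) w - α • w = (β - α) • (T ^ j) y₂ := by
      rw [hTw]; nth_rewrite 1 [hw']; module
    have := key α nα
    rw [e, norm_smul] at this
    nlinarith [norm_nonneg ((T ^ j) y₂)]
  have b₁ : ‖(T ^ j) y₁‖ ≤ 10 ^ D * ‖w‖ := by
    have e : (T ^ D) w - β • w = (-(β - α)) • (T ^ j) y₁ := by
      rw [hTw]; nth_rewrite 1 [hw']; module
    have := key β nβ
    rw [e, norm_smul, norm_neg] at this
    nlinarith [norm_nonneg ((T ^ j) y₁)]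
  constructor
  · have m₁ := le_max_left (‖y₁‖ * (1 / 2 : ℝ) ^ j) (‖y₂‖ * 2 ^ j)
    have m₂ := le_max_right (‖y₁‖ * (1 / 2 : ℝ) ^ j) (‖y₂‖ * 2 ^ j)
    set M := max (‖y₁‖ * (1 / 2 : ℝ) ^ j) (‖y₂‖ * 2 ^ j)
    have hM : 0 ≤ M := le_trans (by positivity) m₁
    calc ‖w‖ ≤ ‖(T ^ j) y₁‖ + ‖(T ^ j) y₂‖ := by rw [hw']; exact norm_add_le _ _
      _ ≤ 10 ^ D * M + 10 ^ D * M := add_le_add
          (g₁.1.trans (mul_le_mul_of_nonneg_left m₁ hp10.le))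
          (g₂.1.trans (mul_le_mul_of_nonneg_left m₂ hp10.le))
      _ = 2 * (10 ^ D * M) := by ring
      _ ≤ 10 ^ D * (10 ^ D * M) := mul_le_mul_of_nonneg_right h10 (by positivity)
      _ = _ := by rw [h100]; ring
  · rw [h100, mul_assoc]
    exact max_le (g₁.2.trans (mul_le_mul_of_nonneg_left b₁ hp10.le))
      (g₂.2.trans (mul_le_mul_of_nonneg_left b₂ hp10.le))

lemma comm_pow_le {T P : X →L[ℂ] X} (hT : ∀ x, ‖T x‖ ≤ 5 * ‖x‖) {η : ℝ} (hη : 0 ≤ η)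
    (hc : ∀ x, ‖P (T x) - T (P x)‖ ≤ η * ‖x‖) (j : ℕ) (x : X) :
    ‖P ((T ^ j) x) - (T ^ j) (P x)‖ ≤ η * 6 ^ j * ‖x‖ := by
  induction j with
  | zero => simp; positivity
  | succ j ih =>
    rw [pow_succ_apply, pow_succ_apply]
    have e : P (T ((T ^ j) x)) - T ((T ^ j) (P x)) =
        (P (T ((T ^ j) x)) - T (P ((T ^ j) x))) + T (P ((T ^ j) x) - (T ^ j) (P x)) := by
      rw [map_sub]; abel
    rw [e]
    have a1 := hc ((T ^ j) x)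
    have a2 := hT (P ((T ^ j) x) - (T ^ j) (P x))
    have a3 := norm_pow_le hT j x
    have a4 : (5 : ℝ) ^ j ≤ 6 ^ j := pow_le_pow_left₀ (by norm_num) (by norm_num) j
    have hx := norm_nonneg x
    have a5 : η * ‖(T ^ j) x‖ ≤ η * (6 ^ j * ‖x‖) :=
      mul_le_mul_of_nonneg_left (a3.trans (mul_le_mul_of_nonneg_right a4 hx)) hη
    calc _ ≤ _ := norm_add_le _ _
      _ ≤ η * (6 ^ j * ‖x‖) + 5 * (η * 6 ^ j * ‖x‖) := by linarith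
      _ = _ := by ring

/-- inside a window of length `W` a visit is seen by the projected dynamics -/
lemma visit_proj {T P : X →L[ℂ] X} (hT : ∀ x, ‖T x‖ ≤ 5 * ‖x‖) (hT' : ∀ x, ‖x‖ ≤ 5 * ‖T x‖)
    {W : ℕ} (hW : 0 < W) (hP : ∀ x, ‖P x‖ ≤ ‖x‖)
    (hc : ∀ x, ‖P (T x) - T (P x)‖ ≤ (1 / 256) ^ W * ‖x‖) {v : X} (hv : ‖v‖ = 1) (hPv : P v = v)
    {z : X} {j : ℕ} (hj : j ≤ W) {μ : ℝ} (hμ : 0 < μ)
    (h : ‖(μ : ℂ) • (T ^ j) z - v‖ < 1 / 4) :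
    1 / 2 < μ * ‖(T ^ j) (P z)‖ ∧ μ * ‖(T ^ j) (P z)‖ < 3 / 2 := by
  have a1 := comm_pow_le hT (by positivity) hc j z
  have a2 := le_norm_pow hT' j z
  have nsm : ∀ u : X, ‖(μ : ℂ) • u‖ = μ * ‖u‖ := by
    intro u; rw [norm_smul, Complex.norm_real, Real.norm_eq_abs, abs_of_pos hμ]
  have a3 : μ * ‖(T ^ j) z‖ ≤ 5 / 4 := by
    rw [← nsm]
    have := norm_add_le ((μ : ℂ) • (T ^ j) z - v) v
    rw [sub_add_cancel] at this
    linarith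
  have a4 : (1 / 256 : ℝ) ^ W * 6 ^ j * 5 ^ j ≤ 1 / 8 := by
    have b1 : (6 : ℝ) ^ j * 5 ^ j ≤ 30 ^ W := by
      rw [← mul_pow]; norm_num; exact pow_le_pow_right₀ (by norm_num) hj
    have b2 : (1 / 256 : ℝ) ^ W * 30 ^ W ≤ 1 / 8 := by
      rw [← mul_pow]
      calc (1 / 256 * 30 : ℝ) ^ W ≤ (1 / 256 * 30) ^ 1 :=
            pow_le_pow_of_le_one (by norm_num) (by norm_num) hW
        _ ≤ 1 / 8 := by norm_num
    calc (1 / 256 : ℝ) ^ W * 6 ^ j * 5 ^ j = (1 / 256 : ℝ) ^ W * (6 ^ j * 5 ^ j) := by ring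
      _ ≤ (1 / 256 : ℝ) ^ W * 30 ^ W := mul_le_mul_of_nonneg_left b1 (by positivity)
      _ ≤ _ := b2
  have a5 : μ * ‖P ((T ^ j) z) - (T ^ j) (P z)‖ ≤ 5 / 32 := by
    have hn := norm_nonneg ((T ^ j) z)
    calc μ * ‖P ((T ^ j) z) - (T ^ j) (P z)‖
        ≤ μ * ((1 / 256) ^ W * 6 ^ j * (5 ^ j * ‖(T ^ j) z‖)) := by
          refine mul_le_mul_of_nonneg_left (a1.trans ?_) hμ.le
          exact mul_le_mul_of_nonneg_left a2 (by positivity)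
      _ = ((1 / 256) ^ W * 6 ^ j * 5 ^ j) * (μ * ‖(T ^ j) z‖) := by ring
      _ ≤ (1 / 8) * (5 / 4) := mul_le_mul a4 a3 (by positivity) (by norm_num)
      _ = _ := by norm_num
  have a6 : ‖(μ : ℂ) • P ((T ^ j) z) - v‖ < 1 / 4 := by
    have := hP ((μ : ℂ) • (T ^ j) z - v)
    rw [map_sub, map_smul, hPv] at this
    linarith
  have a7 : ‖(μ : ℂ) • (T ^ j) (P z) - v‖ < 1 / 2 := by
    have e : (μ : ℂ) • (T ^ j) (P z) - v =
        ((μ : ℂ) • P ((T ^ j) z) - v) - (μ : ℂ) • (P ((T ^ j) z) - (T ^ j) (P z)) := by module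
    rw [e]
    have := norm_sub_le ((μ : ℂ) • P ((T ^ j) z) - v) ((μ : ℂ) • (P ((T ^ j) z) - (T ^ j) (P z)))
    rw [nsm] at this
    linarith
  rw [← nsm]
  have b1 := norm_add_le ((μ : ℂ) • (T ^ j) (P z) - v) v
  rw [sub_add_cancel] at b1
  have b2 := norm_sub_le ((μ : ℂ) • (T ^ j) (P z)) ((μ : ℂ) • (T ^ j) (P z) - v)
  rw [sub_sub_cancel] at b2
  constructor <;> linarith

end

/-- two geometric sequences with ratios differing by a factor at least 2 are comparable only on a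
short interval -/
lemma short_interval {p q r s : ℝ} (hr : 0 < r) (hs : 2 * r ≤ s) (κ : ℕ) :
    ∃ m : ℕ, ∀ j : ℕ, 0 < p * r ^ j → p * r ^ j ≤ 2 ^ κ * (q * s ^ j) →
      q * s ^ j ≤ 2 ^ κ * (p * r ^ j) → m ≤ j ∧ j ≤ m + 2 * κ := by
  classical
  by_cases hne : ∃ j : ℕ, 0 < p * r ^ j ∧ p * r ^ j ≤ 2 ^ κ * (q * s ^ j)
  · refine ⟨Nat.find hne, fun j h1 h2 h3 => ?_⟩
    have hm := Nat.find_spec hne
    have hle : Nat.find hne ≤ j := Nat.find_min' hne ⟨h1, h2⟩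
    refine ⟨hle, ?_⟩
    set m := Nat.find hne
    obtain ⟨t, rfl⟩ := Nat.exists_eq_add_of_le hle
    have hs0 : 0 < s := by linarith
    have hp : 0 < p := by
      have : 0 < r ^ m := by positivity
      exact (mul_pos_iff_of_pos_right this).1 hm.1
    have hq : 0 < q := by
      have a1 : 0 < 2 ^ κ * (q * s ^ m) := lt_of_lt_of_le hm.1 hm.2
      have a2 : 0 < q * s ^ m := by
        by_contra hh
        push Not at hh
        have : (2 : ℝ) ^ κ * (q * s ^ m) ≤ 0 := mul_nonpos_of_nonneg_of_nonpos (by positivity) hh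
        linarith
      by_contra hh
      push Not at hh
      have : q * s ^ m ≤ 0 := mul_nonpos_of_nonpos_of_nonneg hh (by positivity)
      linarith
    have b1 : (2 : ℝ) ^ t * r ^ t ≤ s ^ t := by
      rw [← mul_pow]; exact pow_le_pow_left₀ (by positivity) hs t
    have b2 : (q * s ^ m) * (2 ^ t * r ^ t) ≤ (q * s ^ m) * (2 ^ (2 * κ) * r ^ t) := by
      calc (q * s ^ m) * (2 ^ t * r ^ t) ≤ (q * s ^ m) * s ^ t :=
            mul_le_mul_of_nonneg_left b1 (by positivity)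
        _ = q * s ^ (m + t) := by ring
        _ ≤ 2 ^ κ * (p * r ^ (m + t)) := h3
        _ = 2 ^ κ * r ^ t * (p * r ^ m) := by ring
        _ ≤ 2 ^ κ * r ^ t * (2 ^ κ * (q * s ^ m)) :=
            mul_le_mul_of_nonneg_left hm.2 (by positivity)
        _ = _ := by ring
    have b3 : (2 : ℝ) ^ t * r ^ t ≤ 2 ^ (2 * κ) * r ^ t :=
      le_of_mul_le_mul_left b2 (by positivity)
    have b4 : (2 : ℝ) ^ t ≤ 2 ^ (2 * κ) := le_of_mul_le_mul_right b3 (by positivity)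
    have b5 : t ≤ 2 * κ := (pow_le_pow_iff_right₀ (by norm_num)).1 b4
    omega
  · exact ⟨0, fun j h1 h2 _ => absurd ⟨j, h1, h2⟩ hne⟩

lemma short_interval' {p q r s : ℝ} (hs : 0 < s) (hr : 2 * s ≤ r) (κ : ℕ) :
    ∃ m : ℕ, ∀ j : ℕ, 0 < p * r ^ j → p * r ^ j ≤ 2 ^ κ * (q * s ^ j) →
      q * s ^ j ≤ 2 ^ κ * (p * r ^ j) → m ≤ j ∧ j ≤ m + 2 * κ := by
  obtain ⟨m, hm⟩ := short_interval (p := q) (q := p) hs hr κ
  refine ⟨m, fun j h1 h2 h3 => hm j ?_ h3 h2⟩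
  by_contra hh
  push Not at hh
  have : (2 : ℝ) ^ κ * (q * s ^ j) ≤ 0 := mul_nonpos_of_nonneg_of_nonpos (by positivity) hh
  linarith

lemma cover_four (p q p' q' : ℝ) (κ : ℕ) :
    ∃ F : Finset ℕ, F.card ≤ 4 ∧ ∀ j : ℕ, 0 < max (p * (1 / 2) ^ j) (q * 2 ^ j) →
      max (p * (1 / 2) ^ j) (q * 2 ^ j) ≤ 2 ^ κ * max (p' * 1 ^ j) (q' * 4 ^ j) →
      max (p' * 1 ^ j) (q' * 4 ^ j) ≤ 2 ^ κ * max (p * (1 / 2) ^ j) (q * 2 ^ j) →
      ∃ m ∈ F, m ≤ j ∧ j ≤ m + 2 * κ := by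
  obtain ⟨m₁, h₁⟩ := short_interval (p := p) (q := p') (r := 1 / 2) (s := 1) (by norm_num)
    (by norm_num) κ
  obtain ⟨m₂, h₂⟩ := short_interval (p := p) (q := q') (r := 1 / 2) (s := 4) (by norm_num)
    (by norm_num) κ
  obtain ⟨m₃, h₃⟩ := short_interval' (p := q) (q := p') (r := 2) (s := 1) (by norm_num)
    (by norm_num) κ
  obtain ⟨m₄, h₄⟩ := short_interval (p := q) (q := q') (r := 2) (s := 4) (by norm_num)
    (by norm_num) κ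
  refine ⟨{m₁, m₂, m₃, m₄}, Finset.card_le_four, fun j a b c => ?_⟩
  rcases max_choice (p * (1 / 2) ^ j) (q * 2 ^ j) with e | e <;>
  rcases max_choice (p' * 1 ^ j) (q' * 4 ^ j) with e' | e' <;> rw [e] at a b c <;>
  rw [e'] at b c <;>
  first
    | exact ⟨m₁, by simp, h₁ j a b c⟩
    | exact ⟨m₂, by simp, h₂ j a b c⟩
    | exact ⟨m₃, by simp, h₃ j a b c⟩
    | exact ⟨m₄, by simp, h₄ j a b c⟩

end Pool.Agent.Lib.MP_b6a3e4_an
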