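import Mathlib
import Pool.Agent.Lib.MP_b6a3e4_an.Abstract

/-!
Periodic vectors, eigenvectors and invariant subspaces.
-/

set_option autoImplicit false

namespace Pool.Agent.Lib.MP_b6a3e4_an

open Polynomial

section
variable {X : Type} [NormedAddCommGroup X] [NormedSpace ℂ X]

/-- vectors with `T^N y = r^N y` -/
def EK (T : X →L[ℂ] X) (r : ℝ) (N : ℕ) : Submodule ℂ X where
  carrier := {y | (T ^ N) y = ((r : ℂ) ^ N) • y}
  add_mem' := by
    intro a b ha hb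
    simp only [Set.mem_ofPred_eq] at *
    rw [map_add, ha, hb, smul_add]
  zero_mem' := by simp
  smul_mem' := by
    intro c x hx
    simp only [Set.mem_ofPred_eq] at *
    rw [map_smul, hx, smul_comm]

lemma mem_EK {T : X →L[ℂ] X} {r : ℝ} {N : ℕ} {y : X} :
    y ∈ EK T r N ↔ (T ^ N) y = ((r : ℂ) ^ N) • y := Iff.rfl

/-- invariance under `T` -/
def Inv (T : X →L[ℂ] X) (Z : Submodule ℂ X) : Prop := ∀ x ∈ Z, T x ∈ Z

lemma Inv.pow {T : X →L[ℂ] X} {Z : Submodule ℂ X} (h : Inv T Z) (j : ℕ) {x : X} (hx : x ∈ Z) :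
    (T ^ j) x ∈ Z := by
  induction j with
  | zero => simpa using hx
  | succ j ih => rw [pow_succ_apply]; exact h _ ih

lemma pow_apply_comm (T : X →L[ℂ] X) (N : ℕ) (x : X) : (T ^ N) (T x) = T ((T ^ N) x) := by
  have := pow_comm_apply T 1 N x
  simpa using this

lemma inv_EK (T : X →L[ℂ] X) (r : ℝ) (N : ℕ) : Inv T (EK T r N) := by
  intro x hx
  rw [mem_EK] at *
  rw [pow_apply_comm, hx, map_smul]

lemma Inv.sup {T : X →L[ℂ] X} {Z Z' : Submodule ℂ X} (h : Inv T Z) (h' : Inv T Z') :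
    Inv T (Z ⊔ Z') := by
  intro x hx
  obtain ⟨a, ha, b, hb, rfl⟩ := Submodule.mem_sup.1 hx
  rw [map_add]
  exact Submodule.add_mem_sup (h a ha) (h' b hb)

lemma EK_mono (T : X →L[ℂ] X) (r : ℝ) {N N' : ℕ} (h : N ∣ N') : EK T r N ≤ EK T r N' := by
  obtain ⟨m, rfl⟩ := h
  intro y hy
  rw [mem_EK] at *
  rw [pow_mul_apply_of_periodic hy, ← pow_mul]

/-- preimage of `Z` under `T^N + ρ` -/
def pre (T : X →L[ℂ] X) (Z : Submodule ℂ X) (N : ℕ) (ρ : ℂ) : Submodule ℂ X where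
  carrier := {x | (T ^ N) x + ρ • x ∈ Z}
  add_mem' := by
    intro a b ha hb
    simp only [Set.mem_ofPred_eq] at *
    have := Z.add_mem ha hb
    rw [map_add]
    convert this using 1
    module
  zero_mem' := by simp
  smul_mem' := by
    intro c x hx
    simp only [Set.mem_ofPred_eq] at *
    have := Z.smul_mem c hx
    rw [map_smul]
    convert this using 1
    module

lemma mem_pre {T : X →L[ℂ] X} {Z : Submodule ℂ X} {N : ℕ} {ρ : ℂ} {x : X} :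
    x ∈ pre T Z N ρ ↔ (T ^ N) x + ρ • x ∈ Z := Iff.rfl

lemma Inv.pre {T : X →L[ℂ] X} {Z : Submodule ℂ X} (h : Inv T Z) (N : ℕ) (ρ : ℂ) :
    Inv T (pre T Z N ρ) := by
  intro x hx
  rw [mem_pre] at *
  have := h _ hx
  rwa [map_add, map_smul, ← pow_apply_comm] at this

lemma Inv.le_pre {T : X →L[ℂ] X} {Z : Submodule ℂ X} (h : Inv T Z) (N : ℕ) (ρ : ℂ) :
    Z ≤ Pool.Agent.Lib.MP_b6a3e4_an.pre T Z N ρ := by
  intro x hx
  rw [mem_pre]
  exact Z.add_mem (h.pow N hx) (Z.smul_mem _ hx)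

lemma pow_add_ne {r r' : ℝ} (hr : 0 < r) (hr' : 0 < r') (N : ℕ) :
    (r : ℂ) ^ N + (r' : ℂ) ^ N ≠ 0 := by
  have : (r : ℂ) ^ N + (r' : ℂ) ^ N = ((r ^ N + r' ^ N : ℝ) : ℂ) := by push_cast; ring
  rw [this, Complex.ofReal_ne_zero]
  positivity

lemma lift_step {T : X →L[ℂ] X} {r r' : ℝ} (hr : 0 < r) (hr' : 0 < r') {N : ℕ} {x y₁ y₂ : X}
    (h : (T ^ N) x + (r : ℂ) ^ N • x = y₁ + y₂) (h₁ : y₁ ∈ EK T r N) (h₂ : y₂ ∈ EK T r' N) :
    x - ((r : ℂ) ^ N + (r : ℂ) ^ N)⁻¹ • y₁ - ((r : ℂ) ^ N + (r' : ℂ) ^ N)⁻¹ • y₂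
      ∈ EK T r (2 * N) := by
  rw [mem_EK] at *
  have n1 := pow_add_ne hr hr N
  have n2 := pow_add_ne hr hr' N
  set ρ := (r : ℂ) ^ N with hρ
  set ρ' := (r' : ℂ) ^ N
  set x' := x - (ρ + ρ)⁻¹ • y₁ - (ρ + ρ')⁻¹ • y₂ with hx'
  have e : (T ^ N) x' = (-ρ) • x' := by
    have e1 : (T ^ N) x = y₁ + y₂ - ρ • x := by rw [← h]; abel
    rw [hx', map_sub, map_sub, map_smul, map_smul, h₁, h₂, e1]
    have a1 : y₁ = (ρ + ρ)⁻¹ • (ρ + ρ) • y₁ := by rw [smul_smul, inv_mul_cancel₀ n1, one_smul]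
    have a2 : y₂ = (ρ + ρ')⁻¹ • (ρ + ρ') • y₂ := by rw [smul_smul, inv_mul_cancel₀ n2, one_smul]
    nth_rewrite 1 [a1, a2]
    module
  rw [mul_comm 2 N, pow_mul_apply_of_periodic e, pow_mul, ← hρ]
  simp

lemma mem_span_of_prod {V : Type} [AddCommGroup V] [Module ℂ V] (f : Module.End ℂ V)
    (g : ℕ → ℂ) (S : Finset ℕ) (hg : Set.InjOn g S) (Z : Submodule ℂ V)
    (hZ : ∀ i ∈ S, ∀ y, f y = g i • y → y ∈ Z) :
    LinearMap.ker (aeval f (∏ i ∈ S, (Polynomial.X - C (g i)))) ≤ Z := by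
  classical
  induction S using Finset.induction_on with
  | empty =>
    intro y hy
    simp at hy
    simp [hy]
  | insert a S ha ih =>
    rw [Finset.prod_insert ha, ← sup_ker_aeval_eq_ker_aeval_mul_of_coprime]
    · refine sup_le ?_ (ih (hg.mono (by simp)) (fun i hi => hZ i (Finset.mem_insert_of_mem hi)))
      intro y hy
      refine hZ a (Finset.mem_insert_self _ _) y ?_
      simpa [sub_eq_zero] using hy
    · refine IsCoprime.prod_right fun i hi => ?_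
      refine isCoprime_X_sub_C_of_isUnit_sub (isUnit_iff_ne_zero.2 (sub_ne_zero.2 ?_))
      intro hh
      have := hg (by simp) (by simp [hi]) hh
      exact ha (this ▸ hi)

/-- the span of the eigenvectors whose eigenvalue has modulus `r` -/
def ES (T : X →L[ℂ] X) (r : ℝ) : Submodule ℂ X :=
  Submodule.span ℂ {x : X | ∃ z : ℂ, ‖z‖ = r ∧ T x = z • x}

lemma EK_le_ES (T : X →L[ℂ] X) {r : ℝ} (hr : 0 < r) {N : ℕ} (hN : 0 < N) : EK T r N ≤ ES T r := by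
  intro y hy
  have hζ := Complex.isPrimitiveRoot_exp N hN.ne'
  set ζ := Complex.exp (2 * Real.pi * Complex.I / N)
  have hprod := X_pow_sub_C_eq_prod hζ hN (rfl : (r : ℂ) ^ N = (r : ℂ) ^ N)
  refine mem_span_of_prod (T : X →ₗ[ℂ] X) (fun i => ζ ^ i * r) (Finset.range N) ?_ _ ?_ ?_
  · intro i hi j hj hij
    have hr' : (r : ℂ) ≠ 0 := by exact_mod_cast hr.ne'
    exact hζ.pow_inj (by simpa using hi) (by simpa using hj) (mul_right_cancel₀ hr' hij)
  · intro i _ y hy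
    refine Submodule.subset_span ⟨ζ ^ i * r, ?_, hy⟩
    rw [norm_mul, norm_pow, hζ.norm'_eq_one hN.ne']
    simp [abs_of_pos hr]
  · rw [← hprod, LinearMap.mem_ker]
    rw [mem_EK] at hy
    have : ((T : X →ₗ[ℂ] X) ^ N) y = (T ^ N) y := by
      rw [← ContinuousLinearMap.toLinearMap_pow]; rfl
    rw [map_sub, aeval_C, map_pow, aeval_X, LinearMap.sub_apply, this, hy,
      Module.algebraMap_end_apply, sub_self]

lemma inv_ES (T : X →L[ℂ] X) (r : ℝ) : Inv T (ES T r) := by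
  intro x hx
  induction hx using Submodule.span_induction with
  | mem x hx =>
    obtain ⟨z, hz, h⟩ := hx
    rw [h]
    exact Submodule.smul_mem _ _ (Submodule.subset_span ⟨z, hz, h⟩)
  | zero => simp
  | add x y _ _ hx hy => rw [map_add]; exact Submodule.add_mem _ hx hy
  | smul a x _ hx => rw [map_smul]; exact Submodule.smul_mem _ _ hx

lemma Inv.closure {T : X →L[ℂ] X} {Z : Submodule ℂ X} (h : Inv T Z) :
    Inv T Z.topologicalClosure := by
  intro x hx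
  exact map_mem_closure T.continuous hx h

/-- the polynomial identity characterising `Spl` -/
lemma spl_of_poly {T : X →L[ℂ] X} {D : ℕ} (hD : 0 < D) {y : X}
    (h : (T ^ D) ((T ^ D) y - ((2 : ℝ) : ℂ) ^ D • y) -
      ((1 / 2 : ℝ) : ℂ) ^ D • ((T ^ D) y - ((2 : ℝ) : ℂ) ^ D • y) = 0) : Spl T D y := by
  have hg := gap_ge hD
  set α : ℂ := ((1 / 2 : ℝ) : ℂ) ^ D with hα
  set β : ℂ := ((2 : ℝ) : ℂ) ^ D with hβ
  have hne : β - α ≠ 0 := by
    intro hh; rw [hh, norm_zero] at hg; linarith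
  rw [map_sub, map_smul] at h
  have h2 : (T ^ D) ((T ^ D) y) = (α + β) • (T ^ D) y - (α * β) • y := by
    rw [← sub_eq_zero, ← h]; module
  refine ⟨(β - α)⁻¹ • (β • y - (T ^ D) y), (β - α)⁻¹ • ((T ^ D) y - α • y), ?_, ?_, ?_⟩
  · have : y = (β - α)⁻¹ • (β - α) • y := by rw [smul_smul, inv_mul_cancel₀ hne, one_smul]
    nth_rewrite 1 [this]
    module
  · rw [map_smul, map_sub, map_smul, h2, ← hα]; module
  · rw [map_smul, map_sub, map_smul, h2, ← hβ]; module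

lemma poly_of_mem {T : X →L[ℂ] X} {D : ℕ} {y : X} (h : y ∈ EK T 2 D ⊔ EK T (1 / 2) D) :
    (T ^ D) ((T ^ D) y - ((2 : ℝ) : ℂ) ^ D • y) -
      ((1 / 2 : ℝ) : ℂ) ^ D • ((T ^ D) y - ((2 : ℝ) : ℂ) ^ D • y) = 0 := by
  obtain ⟨a, ha, b, hb, rfl⟩ := Submodule.mem_sup.1 h
  rw [mem_EK] at ha hb
  simp only [map_sub, map_add, map_smul, ha, hb]
  module

end

end Pool.Agent.Lib.MP_b6a3e4_an
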