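import Mathlib

/-!
Operators on `ℓ¹(ι)` described by their columns.
-/

set_option autoImplicit false

namespace Pool.Agent.Lib.MP_b6a3e4_an

open scoped ENNReal

/-- the space `ℓ¹(ι, ℂ)` -/
abbrev L1 (ι : Type) : Type := lp (fun _ : ι => ℂ) 1

section
variable {ι : Type} [DecidableEq ι]

/-- the unit vector basis -/
noncomputable def ev (i : ι) : L1 ι := lp.single 1 i (1 : ℂ)

lemma norm_ev (i : ι) : ‖ev i‖ = 1 := by
  unfold ev
  rw [lp.norm_single (by norm_num)]
  simp

lemma hasSum_ev (x : L1 ι) : HasSum (fun i => x i • ev i) x := by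
  have := lp.hasSum_single (p := 1) (by norm_num) x
  convert this using 2 with i
  unfold ev
  rw [← lp.single_smul]
  simp

omit [DecidableEq ι] in
lemma hasSum_norm_l1 (x : L1 ι) : HasSum (fun i => ‖x i‖) ‖x‖ := by
  have := lp.hasSum_norm (p := 1) (by norm_num) x
  simpa using this

variable {Y : Type} [NormedAddCommGroup Y] [NormedSpace ℂ Y]

lemma hasSum_apply (A : L1 ι →L[ℂ] Y) (x : L1 ι) : HasSum (fun i => x i • A (ev i)) (A x) := by
  have := (hasSum_ev x).mapL A
  simpa using this

lemma norm_apply_le_of_cols (A : L1 ι →L[ℂ] Y) (C : ℝ) (h : ∀ i, ‖A (ev i)‖ ≤ C) (x : L1 ι) :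
    ‖A x‖ ≤ C * ‖x‖ := by
  have h1 := hasSum_apply A x
  have h2 := (hasSum_norm_l1 x).mul_left C
  refine h1.norm_le_of_bounded h2 ?_
  intro i
  rw [norm_smul, mul_comm]
  exact mul_le_mul_of_nonneg_right (h i) (norm_nonneg _)

lemma eq_zero_of_cols (A : L1 ι →L[ℂ] Y) (h : ∀ i, A (ev i) = 0) (x : L1 ι) : A x = 0 := by
  have := norm_apply_le_of_cols A 0 (fun i => by simp [h i]) x
  simpa using this

lemma exists_op [CompleteSpace Y] (c : ι → Y) (C : ℝ) (h : ∀ i, ‖c i‖ ≤ C) :
    ∃ A : L1 ι →L[ℂ] Y, ∀ i, A (ev i) = c i := by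
  have hb : ∀ (x : L1 ι) i, ‖x i • c i‖ ≤ C * ‖x i‖ := by
    intro x i
    rw [norm_smul, mul_comm]
    exact mul_le_mul_of_nonneg_right (h i) (norm_nonneg _)
  have hs : ∀ x : L1 ι, Summable fun i => x i • c i := by
    intro x
    exact Summable.of_norm_bounded ((hasSum_norm_l1 x).mul_left C).summable (hb x)
  let f : L1 ι →ₗ[ℂ] Y :=
    { toFun := fun x => ∑' i, x i • c i
      map_add' := by
        intro x y
        rw [← (hs x).tsum_add (hs y)]
        congr 1
        ext i
        simp [add_smul]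
      map_smul' := by
        intro a x
        simp only [RingHom.id_apply]
        rw [← (hs x).tsum_const_smul a]
        congr 1
        ext i
        simp [mul_smul] }
  refine ⟨f.mkContinuous C ?_, ?_⟩
  · intro x
    exact (hs x).hasSum.norm_le_of_bounded ((hasSum_norm_l1 x).mul_left C) (hb x)
  · intro i
    show ∑' j, (ev i : L1 ι) j • c j = c i
    rw [tsum_eq_single i]
    · simp [ev]
    · intro j hj
      simp [ev, lp.single_apply, hj]

lemma dense_of_ev_mem (Z : Submodule ℂ (L1 ι)) (h : ∀ i, ev i ∈ Z.topologicalClosure) :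
    Dense (Z : Set (L1 ι)) := by
  intro x
  have h1 := hasSum_ev x
  have : x ∈ Z.topologicalClosure := by
    refine (Submodule.isClosed_topologicalClosure Z).mem_of_tendsto h1 ?_
    refine Filter.Eventually.of_forall ?_
    intro s
    exact Submodule.sum_mem _ (fun i _ => Submodule.smul_mem _ _ (h i))
  exact this

lemma separable_L1 [Countable ι] : TopologicalSpace.SeparableSpace (L1 ι) := by
  rw [← TopologicalSpace.isSeparable_univ_iff]
  have h1 : TopologicalSpace.IsSeparable (Set.range (ev : ι → L1 ι)) :=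
    (Set.countable_range _).isSeparable
  have h2 := (TopologicalSpace.IsSeparable.span (R := ℂ) h1).closure
  have h3 := dense_of_ev_mem (Submodule.span ℂ (Set.range (ev : ι → L1 ι))) (fun i =>
    Submodule.le_topologicalClosure _ (Submodule.subset_span ⟨i, rfl⟩))
  rwa [h3.closure_eq] at h2

end

end Pool.Agent.Lib.MP_b6a3e4_an
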