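import Mathlib
import Pool.Agent.Lib.MP_b6a3e4_an.Abstract

/-!
Sparse returns and the Borel-Cantelli step.
-/

set_option autoImplicit false

namespace Pool.Agent.Lib.MP_b6a3e4_an

open scoped ENNReal
open MeasureTheory

/-- the scales -/
def sc : ℕ → ℕ
  | 0 => 1
  | n + 1 => 2 ^ (n + 3) * sc n

lemma sc_pos (n : ℕ) : 0 < sc n := by
  induction n with
  | zero => simp [sc]
  | succ n ih => simp only [sc]; positivity

lemma sc_succ (n : ℕ) : sc (n + 1) = 2 ^ (n + 3) * sc n := rfl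

lemma sc_lt_succ (n : ℕ) : sc n < sc (n + 1) := by
  have h := sc_pos n
  have h2 : 2 ≤ 2 ^ (n + 3) := by
    calc 2 = 2 ^ 1 := by norm_num
      _ ≤ 2 ^ (n + 3) := Nat.pow_le_pow_right (by norm_num) (by omega)
  rw [sc_succ]
  nlinarith

lemma sc_strictMono : StrictMono sc := strictMono_nat_of_lt_succ sc_lt_succ

lemma le_sc (n : ℕ) : n ≤ sc n := sc_strictMono.id_le n

lemma sc_dvd {j m : ℕ} (h : j < m) : 8 * sc j ∣ sc m := by
  induction m with
  | zero => omega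
  | succ m ih =>
    rcases Nat.lt_succ_iff_lt_or_eq.1 h with h' | rfl
    · rw [sc_succ]; exact Dvd.dvd.mul_left (ih h') _
    · rw [sc_succ]; exact ⟨2 ^ j, by ring⟩

lemma exists_scale {k : ℕ} (hk : sc 1 ≤ k) : ∃ n, sc (n + 1) ≤ k ∧ k ≤ sc (n + 2) := by
  induction k, hk using Nat.le_induction with
  | base => exact ⟨0, le_rfl, (sc_lt_succ 1).le⟩
  | succ k _ ih =>
    obtain ⟨n, h1, h2⟩ := ih
    rcases Nat.lt_or_ge k (sc (n + 2)) with h | h
    · exact ⟨n, by omega, h⟩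
    · refine ⟨n + 1, (show sc (n + 2) ≤ k + 1 by omega), ?_⟩
      have := sc_lt_succ (n + 2)
      show k + 1 ≤ sc (n + 2 + 1)
      omega

lemma count_two (A : ℕ → Prop)
    (hA : ∀ n k₀, ∃ F : Finset ℕ, F.card ≤ 4 ∧ ∀ k, k₀ ≤ k → k ≤ k₀ + sc (n + 1) → A k →
      ∃ m ∈ F, m ≤ k ∧ k ≤ m + 4096 * sc n) (n : ℕ) :
    ∃ H : Finset ℕ, H.card ≤ 4 * (4097 * (4 * (4096 * sc n + 1))) ∧
      ∀ k, k ≤ sc (n + 2) → A k → k ∈ H := by
  classical
  have one : ∀ k₀, ∃ G : Finset ℕ, G.card ≤ 4 * (4096 * sc n + 1) ∧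
      ∀ k, k₀ ≤ k → k ≤ k₀ + sc (n + 1) → A k → k ∈ G := by
    intro k₀
    obtain ⟨F, hF, h⟩ := hA n k₀
    refine ⟨F.biUnion fun m => Finset.Icc m (m + 4096 * sc n), ?_, ?_⟩
    · refine (Finset.card_biUnion_le_card_mul _ _ (4096 * sc n + 1) ?_).trans
        (Nat.mul_le_mul_right _ hF)
      intro m _
      rw [Nat.card_Icc]; omega
    · intro k h1 h2 h3
      obtain ⟨m, hm, h4, h5⟩ := h k h1 h2 h3
      exact Finset.mem_biUnion.2 ⟨m, hm, Finset.mem_Icc.2 ⟨h4, h5⟩⟩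
  choose G hG hG' using one
  obtain ⟨F, hF, h⟩ := hA (n + 1) 0
  refine ⟨F.biUnion fun m => (Finset.range 4097).biUnion fun t => G (m + t * sc (n + 1)), ?_, ?_⟩
  · refine (Finset.card_biUnion_le_card_mul _ _ (4097 * (4 * (4096 * sc n + 1))) ?_).trans
      (Nat.mul_le_mul_right _ hF)
    intro m _
    refine (Finset.card_biUnion_le_card_mul _ _ (4 * (4096 * sc n + 1)) ?_).trans ?_
    · intro t _; exact hG _
    · simp
  · intro k h1 h2
    obtain ⟨m, hm, h4, h5⟩ := h k (Nat.zero_le _) (by simpa using h1) h2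
    have hp := sc_pos (n + 1)
    obtain ⟨u, rfl⟩ := Nat.exists_eq_add_of_le h4
    have hu : u ≤ 4096 * sc (n + 1) := by omega
    have e := Nat.div_add_mod u (sc (n + 1))
    have e' := Nat.mod_lt u hp
    have ht : u / sc (n + 1) < 4097 := by
      rw [Nat.div_lt_iff_lt_mul hp]; omega
    have hin : m + u ∈ G (m + u / sc (n + 1) * sc (n + 1)) := by
      refine hG' _ _ ?_ ?_ h2
      · rw [mul_comm]; omega
      · rw [mul_comm]; omega
    rw [Finset.mem_biUnion]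
    refine ⟨m, hm, ?_⟩
    rw [Finset.mem_biUnion]
    refine ⟨u / sc (n + 1), ?_, hin⟩
    rw [Finset.mem_range]
    exact ht

section
variable {X : Type} [NormedAddCommGroup X] [NormedSpace ℂ X]

/-- a simultaneous return of the two components at time `k` with scaling factor `μ` -/
def Visit (T : X →L[ℂ] X) (v : X) (x : X × X) (k : ℕ) (μ : ℝ) : Prop :=
  0 < μ ∧ ‖(μ : ℂ) • (T ^ k) x.1 - v‖ < 1 / 4 ∧
    ‖((μ * 2 ^ k : ℝ) : ℂ) • (T ^ k) x.2 - v‖ < 1 / 4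

lemma window {T P : X →L[ℂ] X} (hT : ∀ x, ‖T x‖ ≤ 5 * ‖x‖) (hT' : ∀ x, ‖x‖ ≤ 5 * ‖T x‖)
    {W : ℕ} (hW : 0 < W) (hP : ∀ x, ‖P x‖ ≤ ‖x‖)
    (hc : ∀ x, ‖P (T x) - T (P x)‖ ≤ (1 / 256) ^ W * ‖x‖) {v : X} (hv : ‖v‖ = 1) (hPv : P v = v)
    {D : ℕ} (hD : 0 < D) (hS : ∀ x, Spl T D (P x)) (x : X × X) (k₀ : ℕ) :
    ∃ F : Finset ℕ, F.card ≤ 4 ∧ ∀ k, k₀ ≤ k → k ≤ k₀ + W → (∃ μ, Visit T v x k μ) →
      ∃ m ∈ F, m ≤ k ∧ k ≤ m + 2 * (14 * D + 2) := by
  classical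
  obtain ⟨p, q, -, -, g⟩ := gauge_two hT hT' hD (hS ((T ^ k₀) x.1))
  obtain ⟨p', q', -, -, g'⟩ := gauge_two hT hT' hD (hS ((T ^ k₀) x.2))
  obtain ⟨F, hF, h⟩ := cover_four p q (2 ^ k₀ * p') (2 ^ k₀ * q') (14 * D + 2)
  refine ⟨F.image (· + k₀), Finset.card_image_le.trans hF, ?_⟩
  rintro k h1 h2 ⟨μ, hμ, v1, v2⟩
  obtain ⟨j, rfl⟩ := Nat.exists_eq_add_of_le h1
  have hj : j ≤ W := by omega
  rw [add_comm k₀ j, pow_add_apply] at v1 v2
  have hμ' : 0 < μ * 2 ^ (j + k₀) := by positivity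
  have w1 := visit_proj hT hT' hW hP hc hv hPv hj hμ v1
  have w2 := visit_proj hT hT' hW hP hc hv hPv hj hμ' v2
  obtain ⟨g1, g2⟩ := g j
  obtain ⟨g1', g2'⟩ := g' j
  set a := ‖(T ^ j) (P ((T ^ k₀) x.1))‖
  set b := ‖(T ^ j) (P ((T ^ k₀) x.2))‖
  set M := max (p * (1 / 2 : ℝ) ^ j) (q * 2 ^ j)
  set M' := max (p' * (1 / 2 : ℝ) ^ j) (q' * 2 ^ j) with hM'
  have eN : max (2 ^ k₀ * p' * 1 ^ j) (2 ^ k₀ * q' * 4 ^ j) = 2 ^ (j + k₀) * M' := by
    rw [hM', mul_max_of_nonneg _ _ (by positivity)]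
    congr 1
    · have : (2 : ℝ) ^ j * (1 / 2) ^ j = 1 := by rw [← mul_pow]; norm_num
      rw [pow_add, one_pow]
      linear_combination (-(2 ^ k₀ * p')) * this
    · have : (4 : ℝ) ^ j = 2 ^ j * 2 ^ j := by rw [← mul_pow]; norm_num
      rw [pow_add, this]; ring
  set c : ℝ := 2 ^ (j + k₀) with hc'
  have hc0 : 0 < c := by positivity
  set C : ℝ := 100 ^ D with hC
  have hC0 : 0 < C := by positivity
  have hK : 4 * (C * C) ≤ 2 ^ (14 * D + 2) := by
    have a1 : C ≤ 2 ^ (7 * D) := by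
      rw [hC, pow_mul]; exact pow_le_pow_left₀ (by norm_num) (by norm_num) D
    have a2 : (2 : ℝ) ^ (14 * D + 2) = 4 * (2 ^ (7 * D) * 2 ^ (7 * D)) := by ring
    rw [a2]
    have := mul_le_mul a1 a1 hC0.le (by positivity)
    linarith
  have ha : 0 < a := by
    by_contra hh
    push Not at hh
    have : μ * a ≤ 0 := mul_nonpos_of_nonneg_of_nonpos hμ.le hh
    linarith
  have hb : 0 < b := by
    by_contra hh
    push Not at hh
    have : μ * c * b ≤ 0 := mul_nonpos_of_nonneg_of_nonpos hμ'.le hh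
    linarith
  have hab : a ≤ 4 * (c * b) := by
    have : μ * a ≤ μ * (4 * (c * b)) := by nlinarith
    exact le_of_mul_le_mul_left this hμ
  have hba : c * b ≤ 4 * a := by
    have : μ * (c * b) ≤ μ * (4 * a) := by nlinarith
    exact le_of_mul_le_mul_left this hμ
  have hM0 : 0 < M := (mul_pos_iff_of_pos_left hC0).1 (lt_of_lt_of_le ha g1)
  have hM0' : 0 < M' := (mul_pos_iff_of_pos_left hC0).1 (lt_of_lt_of_le hb g1')
  obtain ⟨m, hm, h3, h4⟩ := h j hM0 (by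
    rw [eN]
    calc M ≤ C * a := g2
      _ ≤ C * (4 * (c * b)) := mul_le_mul_of_nonneg_left hab hC0.le
      _ ≤ C * (4 * (c * (C * M'))) := by gcongr
      _ = 4 * (C * C) * (c * M') := by ring
      _ ≤ _ := mul_le_mul_of_nonneg_right hK (by positivity)) (by
    rw [eN]
    calc c * M' ≤ c * (C * b) := mul_le_mul_of_nonneg_left g2' hc0.le
      _ = C * (c * b) := by ring
      _ ≤ C * (4 * a) := mul_le_mul_of_nonneg_left hba hC0.le
      _ ≤ C * (4 * (C * M)) := by gcongr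
      _ = 4 * (C * C) * M := by ring
      _ ≤ _ := mul_le_mul_of_nonneg_right hK hM0.le)
  exact ⟨m + k₀, Finset.mem_image.2 ⟨m, hm, rfl⟩, by omega, by omega⟩

/-- the set of scalars in `(1/2, 1)` for which time `k` is a return -/
def Lam (T : X →L[ℂ] X) (v : X) (x : X × X) (k : ℕ) : Set ℝ :=
  {l | 1 / 2 < l ∧ l < 1 ∧ Visit T v x k (l ^ k)}

lemma Lam_close {T : X →L[ℂ] X} {v : X} (hv : ‖v‖ = 1) {x : X × X} {k : ℕ} (hk : 0 < k)
    {l l' : ℝ} (h : l ∈ Lam T v x k) (h' : l' ∈ Lam T v x k) : l' ≤ l + 1 / k := by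
  obtain ⟨a1, a2, a3, a4, -⟩ := h
  obtain ⟨b1, b2, b3, b4, -⟩ := h'
  have hk' : (0 : ℝ) < k := by exact_mod_cast hk
  by_cases hle : l' ≤ l
  · have : (0 : ℝ) < 1 / k := by positivity
    linarith
  push Not at hle
  have hl : 0 < l := by linarith
  have nsm : ∀ (μ : ℝ) (u : X), 0 < μ → ‖(μ : ℂ) • u‖ = μ * ‖u‖ := by
    intro μ u hμ; rw [norm_smul, Complex.norm_real, Real.norm_eq_abs, abs_of_pos hμ]
  set u := (T ^ k) x.1
  have c1 : 3 / 4 < l ^ k * ‖u‖ := by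
    rw [← nsm _ _ a3]
    have := norm_sub_le (((l ^ k : ℝ) : ℂ) • u) (((l ^ k : ℝ) : ℂ) • u - v)
    rw [sub_sub_cancel] at this
    linarith
  have c2 : l' ^ k * ‖u‖ < 5 / 4 := by
    rw [← nsm _ _ b3]
    have := norm_add_le (((l' ^ k : ℝ) : ℂ) • u - v) v
    rw [sub_add_cancel] at this
    linarith
  have hb := one_add_mul_le_pow (a := (l' - l) / l) (by
    have : 0 < (l' - l) / l := div_pos (by linarith) hl
    linarith) k
  have e : 1 + (l' - l) / l = l' / l := by field_simp; ring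
  rw [e, div_pow, le_div_iff₀ a3] at hb
  have c3 : (1 + k * ((l' - l) / l)) * (l ^ k * ‖u‖) ≤ l' ^ k * ‖u‖ := by
    rw [← mul_assoc]; exact mul_le_mul_of_nonneg_right hb (norm_nonneg _)
  have hpos : 0 < k * ((l' - l) / l) := mul_pos hk' (div_pos (by linarith) hl)
  have c4 : k * ((l' - l) / l) < 1 := by nlinarith
  have c5 : k * (l' - l) < l := by
    rw [← mul_div_assoc, div_lt_one hl] at c4; exact c4
  have c6 : l' - l ≤ 1 / k := by
    rw [le_div_iff₀ hk']; nlinarith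
  linarith

lemma volume_Lam {T : X →L[ℂ] X} {v : X} (hv : ‖v‖ = 1) (x : X × X) {k : ℕ} (hk : 0 < k) :
    volume (Lam T v x k) ≤ ENNReal.ofReal (2 / k) := by
  rcases (Lam T v x k).eq_empty_or_nonempty with h | ⟨l, hl⟩
  · simp [h]
  · have : Lam T v x k ⊆ Set.Icc (l - 1 / k) (l + 1 / k) := by
      intro l' hl'
      have h1 := Lam_close hv hk hl hl'
      have h2 := Lam_close hv hk hl' hl
      constructor <;> linarith
    refine (measure_mono this).trans ?_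
    rw [Real.volume_Icc]
    apply le_of_eq
    congr 1
    ring

theorem exists_bad_scalar {T : X →L[ℂ] X} (hT : ∀ x, ‖T x‖ ≤ 5 * ‖x‖)
    (hT' : ∀ x, ‖x‖ ≤ 5 * ‖T x‖) (P : ℕ → X →L[ℂ] X) (hP : ∀ n x, ‖P n x‖ ≤ ‖x‖)
    (hc : ∀ n x, ‖P n (T x) - T (P n x)‖ ≤ (1 / 256) ^ sc (n + 1) * ‖x‖) {v : X} (hv : ‖v‖ = 1)
    (hPv : ∀ n, P n v = v) (hS : ∀ n x, Spl T (128 * sc n) (P n x)) (x : X × X) :
    ∃ l : ℝ, 1 / 2 < l ∧ l < 1 ∧ {k | Visit T v x k (l ^ k)}.Finite := by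
  classical
  have hA : ∀ n k₀, ∃ F : Finset ℕ, F.card ≤ 4 ∧ ∀ k, k₀ ≤ k → k ≤ k₀ + sc (n + 1) →
      (∃ μ, Visit T v x k μ) → ∃ m ∈ F, m ≤ k ∧ k ≤ m + 4096 * sc n := by
    intro n k₀
    have hp := sc_pos n
    obtain ⟨F, hF, h⟩ := window hT hT' (sc_pos (n + 1)) (hP n) (hc n) hv (hPv n)
      (D := 128 * sc n) (by omega) (hS n) x k₀
    refine ⟨F, hF, fun k h1 h2 h3 => ?_⟩
    obtain ⟨m, hm, h4, h5⟩ := h k h1 h2 h3
    exact ⟨m, hm, h4, by omega⟩
  let G : ℕ → Set ℝ := fun n => {l | ∃ k, sc (n + 1) ≤ k ∧ k ≤ sc (n + 2) ∧ l ∈ Lam T v x k}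
  have hG : ∀ n, volume (G n) ≤ ENNReal.ofReal (10 ^ 9 * (1 / 2) ^ n) := by
    intro n
    obtain ⟨H, hH, h⟩ := count_two _ hA n
    have hsub : G n ⊆ ⋃ k ∈ H.filter (fun k => sc (n + 1) ≤ k), Lam T v x k := by
      rintro l ⟨k, h1, h2, h3⟩
      exact Set.mem_biUnion (x := k)
        (Finset.mem_coe.2 (Finset.mem_filter.2 ⟨h k h2 ⟨_, h3.2.2⟩, h1⟩)) h3
    have hp := sc_pos n
    have hp' := sc_pos (n + 1)
    have hpr : (0 : ℝ) < sc (n + 1) := by exact_mod_cast hp'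
    calc volume (G n) ≤ _ := measure_mono hsub
      _ ≤ ∑ k ∈ H.filter (fun k => sc (n + 1) ≤ k), volume (Lam T v x k) :=
          measure_biUnion_finset_le _ _
      _ ≤ ∑ k ∈ H.filter (fun k => sc (n + 1) ≤ k), ENNReal.ofReal (2 / sc (n + 1)) := by
          refine Finset.sum_le_sum fun k hk => ?_
          have hk' := (Finset.mem_filter.1 hk).2
          refine (volume_Lam hv x (by omega)).trans (ENNReal.ofReal_le_ofReal ?_)
          have : (sc (n + 1) : ℝ) ≤ k := by exact_mod_cast hk'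
          gcongr
      _ = ENNReal.ofReal ((H.filter (fun k => sc (n + 1) ≤ k)).card * (2 / sc (n + 1))) := by
          rw [Finset.sum_const, nsmul_eq_mul, ENNReal.ofReal_mul (by positivity),
            ENNReal.ofReal_natCast]
      _ ≤ _ := by
          refine ENNReal.ofReal_le_ofReal ?_
          have c1 : (H.filter (fun k => sc (n + 1) ≤ k)).card ≤ 10 ^ 9 * sc n :=
            (Finset.card_filter_le _ _).trans (hH.trans (by omega))
          have c2 : ((H.filter (fun k => sc (n + 1) ≤ k)).card : ℝ) ≤ 10 ^ 9 * sc n := by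
            exact_mod_cast c1
          have c3 : (sc (n + 1) : ℝ) = 2 ^ (n + 3) * sc n := by rw [sc_succ]; push_cast; ring
          have c4 : (0 : ℝ) < sc n := by exact_mod_cast hp
          calc _ ≤ (10 ^ 9 * sc n) * (2 / (sc (n + 1) : ℝ)) :=
                mul_le_mul_of_nonneg_right c2 (by positivity)
            _ = 10 ^ 9 * (1 / 2) ^ n / 4 := by rw [c3, one_div, inv_pow]; field_simp; ring
            _ ≤ _ := by
                have : (0 : ℝ) ≤ 10 ^ 9 * (1 / 2) ^ n := by positivity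
                linarith
  have hsum : ∑' n, volume (G n) ≠ ∞ := by
    refine ne_top_of_le_ne_top ?_ (ENNReal.tsum_le_tsum hG)
    rw [← ENNReal.ofReal_tsum_of_nonneg (fun n => by positivity)
      (summable_geometric_two.mul_left _)]
    exact ENNReal.ofReal_ne_top
  have hae := ae_finite_setOfPred_mem hsum
  obtain ⟨l, hl, hfin⟩ := Measure.exists_mem_of_measure_ne_zero_of_ae
    (μ := (volume : Measure ℝ)) (s := Set.Ioo (1 / 2) 1) (by rw [Real.volume_Ioo]; norm_num)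
    (ae_restrict_of_ae hae)
  refine ⟨l, hl.1, hl.2, ?_⟩
  refine ((Set.finite_Iio (sc 1)).union
    (hfin.biUnion (fun n _ => Set.finite_Icc (sc (n + 1)) (sc (n + 2))))).subset ?_
  intro k hk
  rcases Nat.lt_or_ge k (sc 1) with h | h
  · exact Or.inl h
  · obtain ⟨n, h1, h2⟩ := exists_scale h
    exact Or.inr (Set.mem_biUnion (x := n) ⟨k, h1, h2, hl.1, hl.2, hk⟩ ⟨h1, h2⟩)

/-- the operator `T ⊕ 2T` -/
noncomputable def dbl (T : X →L[ℂ] X) : X × X →L[ℂ] X × X := T.prodMap ((2 : ℂ) • T)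

lemma smul_dbl_pow (T : X →L[ℂ] X) (z : ℂ) (k : ℕ) (x : X × X) :
    ((z • dbl T) ^ k) x = (z ^ k • (T ^ k) x.1, (z ^ k * 2 ^ k) • (T ^ k) x.2) := by
  induction k with
  | zero => simp
  | succ k ih =>
    rw [pow_succ_apply, ih, pow_succ_apply, pow_succ_apply]
    ext
    · simp [dbl, smul_smul, pow_succ']
    · simp only [dbl, smul_apply, ContinuousLinearMap.coe_prodMap',
        Prod.map, Prod.smul_mk, map_smul, smul_smul]
      congr 1
      ring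

theorem not_dense_of_finite {T : X →L[ℂ] X} {v : X} (hv : ‖v‖ = 1) {x : X × X} {l : ℝ}
    (hl : 0 < l) (h : {k | Visit T v x k (l ^ k)}.Finite) :
    ¬ Dense (Set.range (fun n : ℕ => (((l : ℂ) • dbl T) ^ n) x)) := by
  intro hd
  have hnt : Nontrivial (X × X) := ⟨⟨(v, v), 0, by
    intro hh
    have : v = 0 := congrArg Prod.fst hh
    rw [this, norm_zero] at hv
    exact zero_ne_one hv⟩⟩
  have : ∀ y : X × X, Filter.NeBot (nhdsWithin y {y}ᶜ) :=
    fun y => Module.punctured_nhds_neBot ℂ (X × X) y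
  have hd' := hd.sdiff_finite (h.image (fun n : ℕ => (((l : ℂ) • dbl T) ^ n) x))
  obtain ⟨y, hy1, ⟨k, rfl⟩, hy2⟩ := hd'.inter_open_nonempty (Metric.ball (v, v) (1 / 4))
    Metric.isOpen_ball ⟨(v, v), Metric.mem_ball_self (by norm_num)⟩
  apply hy2
  refine ⟨k, ?_, rfl⟩
  simp only [smul_dbl_pow] at hy1
  rw [mem_ball_iff_norm, Prod.norm_def, max_lt_iff] at hy1
  refine ⟨by positivity, ?_, ?_⟩
  · simpa using hy1.1
  · simpa using hy1.2

end

end Pool.Agent.Lib.MP_b6a3e4_an
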