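import Mathlib
import Pool.Agent.Lib.MP_b6a3e4_an.Model

/-!
The counterexample `T ⊕ 2T` with `a = 1`, `b = 2`.
-/

set_option autoImplicit false

namespace Pool.Agent.Lib.MP_b6a3e4_an

open scoped NNReal ENNReal

section
variable {X : Type} [NormedAddCommGroup X] [NormedSpace ℂ X]

lemma dense_dbl (T : X →L[ℂ] X) {r : ℝ} (h : Dense (ES T r : Set X)) (p : ℂ → Prop)
    (h1 : ∀ z : ℂ, ‖z‖ = r → p z) (h2 : ∀ z : ℂ, ‖z‖ = 2 * r → p z) :
    Dense ((Submodule.span ℂ {x : X × X | ∃ z : ℂ, p z ∧ dbl T x = z • x}) : Set (X × X)) := by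
  have hd : Dense (((ES T r).prod (ES T r) : Submodule ℂ (X × X)) : Set (X × X)) := by
    rw [Submodule.prod_coe]; exact h.prod h
  refine hd.mono ?_
  have : (ES T r).prod (ES T r) ≤
      Submodule.span ℂ {x : X × X | ∃ z : ℂ, p z ∧ dbl T x = z • x} := by
    rw [Submodule.prod_le_iff]
    constructor
    · unfold ES
      rw [Submodule.map_span_le]
      rintro x ⟨z, hz, hx⟩
      refine Submodule.subset_span ⟨z, h1 z hz, ?_⟩
      simp [dbl, hx]
    · unfold ES
      rw [Submodule.map_span_le]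
      rintro x ⟨z, hz, hx⟩
      refine Submodule.subset_span ⟨2 * z, h2 _ (by simp [hz]), ?_⟩
      simp [dbl, hx, smul_smul]
  exact this

end

theorem hyp_H (α : ℝ≥0) (h1 : 1 < α) (h2 : (α : ℝ≥0∞) < 2) :
    Dense ((Submodule.span ℂ {x : XX × XX | ∃ z : ℂ, ‖z‖₊ < α ∧ dbl TT x = z • x}) :
      Set (XX × XX)) ∧
    Dense ((Submodule.span ℂ {x : XX × XX | ∃ z : ℂ, α < ‖z‖₊ ∧ dbl TT x = z • x}) :
      Set (XX × XX)) := by
  have h1' : (1 : ℝ) < α := by exact_mod_cast h1
  have h2' : (α : ℝ) < 2 := by exact_mod_cast h2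
  constructor
  · refine dense_dbl TT (dense_ES false) (fun z => ‖z‖₊ < α) ?_ ?_
    · intro z hz
      rw [← NNReal.coe_lt_coe, coe_nnnorm, hz]
      simp only [rho, Bool.false_eq_true, if_false]
      linarith
    · intro z hz
      rw [← NNReal.coe_lt_coe, coe_nnnorm, hz]
      simp only [rho, Bool.false_eq_true, if_false]
      linarith
  · refine dense_dbl TT (dense_ES true) (fun z => α < ‖z‖₊) ?_ ?_
    · intro z hz
      rw [← NNReal.coe_lt_coe, coe_nnnorm, hz]
      simp only [rho, if_true]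
      linarith
    · intro z hz
      rw [← NNReal.coe_lt_coe, coe_nnnorm, hz]
      simp only [rho, if_true]
      linarith

theorem no_common (x : XX × XX) : ∃ l : ℝ, 1 / 2 < l ∧ l < 1 ∧
    ¬ Dense (Set.range (fun n : ℕ => (((l : ℂ) • dbl TT) ^ n) x)) := by
  obtain ⟨l, h1, h2, h3⟩ := bad_scalar x
  exact ⟨l, h1, h2, not_dense_of_finite (norm_EE 0 0) (by linarith) h3⟩

end Pool.Agent.Lib.MP_b6a3e4_an
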