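import Mathlib
import Pool.Agent.Lib.MP_b6a3e4_an.Final

/-!
Sparse returns along an arbitrary sequence of scales.
-/

set_option autoImplicit false
set_option linter.unusedSectionVars false

namespace Pool.Agent.Lib.MP_b6a3e4_an.Sz

/-- a sequence of scales -/
class Scale where
  /-- the sequence -/
  seq : ℕ → ℕ
  pos : ∀ n, 0 < seq n
  dvd : ∀ n, 8 * seq n ∣ seq (n + 1)

variable [Scale]

/-- the scales -/
def sc (n : ℕ) : ℕ := Scale.seq n

lemma sc_pos (n : ℕ) : 0 < sc n := Scale.pos n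

lemma sc_lt_succ (n : ℕ) : sc n < sc (n + 1) := by
  have h := sc_pos n
  have h2 : 8 * sc n ≤ sc (n + 1) := Nat.le_of_dvd (sc_pos _) (Scale.dvd n)
  omega

lemma sc_strictMono : StrictMono sc := strictMono_nat_of_lt_succ sc_lt_succ

lemma le_sc (n : ℕ) : n ≤ sc n := sc_strictMono.id_le n

lemma sc_dvd {j m : ℕ} (h : j < m) : 8 * sc j ∣ sc m := by
  induction m with
  | zero => omega
  | succ m ih =>
    rcases Nat.lt_succ_iff_lt_or_eq.1 h with h' | rfl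
    · exact (ih h').trans ((Dvd.intro_left 8 rfl).trans (Scale.dvd m))
    · exact Scale.dvd _

lemma exists_scale {k : ℕ} (hk : sc 1 ≤ k) : ∃ n, sc (n + 1) ≤ k ∧ k ≤ sc (n + 2) := by
  induction k, hk using Nat.le_induction with
  | base => exact ⟨0, le_rfl, (sc_lt_succ 1).le⟩
  | succ k _ ih =>
    obtain ⟨n, h1, h2⟩ := ih
    rcases Nat.lt_or_ge k (sc (n + 2)) with h | h
    · exact ⟨n, by omega, h⟩
    · refine ⟨n + 1, (show sc (n + 2) ≤ k + 1 by omega), ?_⟩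
      have := sc_lt_succ (n + 2)
      show k + 1 ≤ sc (n + 2 + 1)
      omega

lemma count_two (A : ℕ → Prop)
    (hA : ∀ n k₀, ∃ F : Finset ℕ, F.card ≤ 4 ∧ ∀ k, k₀ ≤ k → k ≤ k₀ + sc (n + 1) → A k →
      ∃ m ∈ F, m ≤ k ∧ k ≤ m + 4096 * sc n) (n : ℕ) :
    ∃ H : Finset ℕ, H.card ≤ 4 * (4097 * (4 * (4096 * sc n + 1))) ∧
      ∀ k, k ≤ sc (n + 2) → A k → k ∈ H := by
  classical
  have one : ∀ k₀, ∃ G : Finset ℕ, G.card ≤ 4 * (4096 * sc n + 1) ∧
      ∀ k, k₀ ≤ k → k ≤ k₀ + sc (n + 1) → A k → k ∈ G := by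
    intro k₀
    obtain ⟨F, hF, h⟩ := hA n k₀
    refine ⟨F.biUnion fun m => Finset.Icc m (m + 4096 * sc n), ?_, ?_⟩
    · refine (Finset.card_biUnion_le_card_mul _ _ (4096 * sc n + 1) ?_).trans
        (Nat.mul_le_mul_right _ hF)
      intro m _
      rw [Nat.card_Icc]; omega
    · intro k h1 h2 h3
      obtain ⟨m, hm, h4, h5⟩ := h k h1 h2 h3
      exact Finset.mem_biUnion.2 ⟨m, hm, Finset.mem_Icc.2 ⟨h4, h5⟩⟩
  choose G hG hG' using one
  obtain ⟨F, hF, h⟩ := hA (n + 1) 0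
  refine ⟨F.biUnion fun m => (Finset.range 4097).biUnion fun t => G (m + t * sc (n + 1)), ?_, ?_⟩
  · refine (Finset.card_biUnion_le_card_mul _ _ (4097 * (4 * (4096 * sc n + 1))) ?_).trans
      (Nat.mul_le_mul_right _ hF)
    intro m _
    refine (Finset.card_biUnion_le_card_mul _ _ (4 * (4096 * sc n + 1)) ?_).trans ?_
    · intro t _; exact hG _
    · simp
  · intro k h1 h2
    obtain ⟨m, hm, h4, h5⟩ := h k (Nat.zero_le _) (by simpa using h1) h2
    have hp := sc_pos (n + 1)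
    obtain ⟨u, rfl⟩ := Nat.exists_eq_add_of_le h4
    have hu : u ≤ 4096 * sc (n + 1) := by omega
    have e := Nat.div_add_mod u (sc (n + 1))
    have e' := Nat.mod_lt u hp
    have ht : u / sc (n + 1) < 4097 := by
      rw [Nat.div_lt_iff_lt_mul hp]; omega
    have hin : m + u ∈ G (m + u / sc (n + 1) * sc (n + 1)) := by
      refine hG' _ _ ?_ ?_ h2
      · rw [mul_comm]; omega
      · rw [mul_comm]; omega
    rw [Finset.mem_biUnion]
    refine ⟨m, hm, ?_⟩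
    rw [Finset.mem_biUnion]
    refine ⟨u / sc (n + 1), ?_, hin⟩
    rw [Finset.mem_range]
    exact ht

section
variable {X : Type} [NormedAddCommGroup X] [NormedSpace ℂ X]

/-- the scalars with a return at a time of scale `n` lie in few short intervals -/
theorem cover_scale {T : X →L[ℂ] X} (hT : ∀ x, ‖T x‖ ≤ 5 * ‖x‖)
    (hT' : ∀ x, ‖x‖ ≤ 5 * ‖T x‖) (P : ℕ → X →L[ℂ] X) (hP : ∀ n x, ‖P n x‖ ≤ ‖x‖)
    (hc : ∀ n x, ‖P n (T x) - T (P n x)‖ ≤ (1 / 256) ^ sc (n + 1) * ‖x‖) {v : X} (hv : ‖v‖ = 1)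
    (hPv : ∀ n, P n v = v) (hS : ∀ n x, Spl T (128 * sc n) (P n x)) (x : X × X) (n : ℕ) :
    ∃ c : ℕ → ℝ, ∀ l k, sc (n + 1) ≤ k → k ≤ sc (n + 2) → l ∈ Lam T v x k →
      ∃ i, i < 10 ^ 9 * sc n ∧ l ∈ Set.Icc (c i) (c i + 2 / sc (n + 1)) := by
  classical
  have hA : ∀ n k₀, ∃ F : Finset ℕ, F.card ≤ 4 ∧ ∀ k, k₀ ≤ k → k ≤ k₀ + sc (n + 1) →
      (∃ μ, Visit T v x k μ) → ∃ m ∈ F, m ≤ k ∧ k ≤ m + 4096 * sc n := by
    intro n k₀
    have hp := sc_pos n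
    obtain ⟨F, hF, h⟩ := window hT hT' (sc_pos (n + 1)) (hP n) (hc n) hv (hPv n)
      (D := 128 * sc n) (by omega) (hS n) x k₀
    refine ⟨F, hF, fun k h1 h2 h3 => ?_⟩
    obtain ⟨m, hm, h4, h5⟩ := h k h1 h2 h3
    exact ⟨m, hm, h4, by omega⟩
  obtain ⟨H, hH, h⟩ := count_two _ hA n
  have hp := sc_pos n
  have hp' := sc_pos (n + 1)
  have hpr : (0 : ℝ) < sc (n + 1) := by exact_mod_cast hp'
  have c1 : H.card ≤ 10 ^ 9 * sc n := hH.trans (by omega)
  have one : ∀ k : ℕ, ∃ d : ℝ, sc (n + 1) ≤ k → ∀ l ∈ Lam T v x k,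
      l ∈ Set.Icc d (d + 2 / sc (n + 1)) := by
    intro k
    rcases (Lam T v x k).eq_empty_or_nonempty with he | ⟨l₀, hl₀⟩
    · exact ⟨0, fun _ l hl => by rw [he] at hl; exact hl.elim⟩
    · refine ⟨l₀ - 1 / sc (n + 1), fun hk l hl => ?_⟩
      have hk0 : 0 < k := by omega
      have h1 := Lam_close hv hk0 hl₀ hl
      have h2 := Lam_close hv hk0 hl hl₀
      have h3 : (sc (n + 1) : ℝ) ≤ k := by exact_mod_cast hk
      have h4 : (1 : ℝ) / k ≤ 1 / sc (n + 1) := one_div_le_one_div_of_le hpr h3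
      have h5 : (2 : ℝ) / sc (n + 1) = 1 / sc (n + 1) + 1 / sc (n + 1) := by ring
      constructor <;> linarith
  choose d hd using one
  refine ⟨fun i => d (H.toList.getD i 0), fun l k h1 h2 h3 => ?_⟩
  have hk : k ∈ H.toList := Finset.mem_toList.2 (h k h2 ⟨_, h3.2.2⟩)
  obtain ⟨i, hi, e⟩ := List.getElem_of_mem hk
  refine ⟨i, ?_, ?_⟩
  · rw [Finset.length_toList] at hi; omega
  · have : H.toList.getD i 0 = k := by rw [List.getD_eq_getElem _ _ hi, e]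
    simp only [this]
    exact hd k h1 l h3

end

end Pool.Agent.Lib.MP_b6a3e4_an.Sz
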