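import Mathlib
import Pool.Agent.Lib.MP_b6a3e4_an.SzSparse

/-!
The block operator of `Model`, built along an arbitrary sequence of scales.
-/

set_option autoImplicit false
set_option linter.unusedSectionVars false

namespace Pool.Agent.Lib.MP_b6a3e4_an.Sz

variable [Scale]

/-- block lengths -/
def bl (n : ℕ) : ℕ := 64 * sc n

lemma bl_pos (n : ℕ) : 0 < bl n := by
  have := sc_pos n
  unfold bl; omega

instance instNeZeroBl (n : ℕ) : NeZero (bl n) := ⟨(bl_pos n).ne'⟩

/-- the index set -/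
abbrev Ix : Type := Σ n : ℕ, ZMod (bl n)

/-- the space -/
abbrev XX : Type := L1 Ix

/-- parent block -/
def par (m : ℕ) : ℕ := (Nat.unpair (m - 1)).1

/-- type of a block: `true` for modulus `2`, `false` for modulus `1/2` -/
def ty (m : ℕ) : Bool := decide ((Nat.unpair (m - 1)).2 % 2 = 0)

/-- modulus of a type -/
noncomputable def rho (t : Bool) : ℝ := if t then 2 else 1 / 2

/-- length of the descending part of a block -/
def dd (m : ℕ) : ℕ := if ty m then 16 * sc m else 48 * sc m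

/-- size of the link -/
noncomputable def lk (m : ℕ) : ℝ := if m = 0 then 0 else (1 / 256) ^ sc m

/-- weights -/
noncomputable def wt (m : ℕ) (z : ZMod (bl m)) : ℝ :=
  if z = 0 then -1 / 4 else if z.val < dd m then 1 / 4 else 4

/-- link coefficient -/
noncomputable def cf (m : ℕ) (z : ZMod (bl m)) : ℝ := if z = 0 then lk m else 0

/-- basis vectors with a natural number position -/
noncomputable def EE (n i : ℕ) : XX := ev ⟨n, (i : ZMod (bl n))⟩

/-- columns of the operator -/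
noncomputable def col (i : Ix) : XX :=
  (wt i.1 i.2 : ℂ) • ev ⟨i.1, i.2 + 1⟩ + (cf i.1 i.2 : ℂ) • EE (par i.1) 0

lemma par_le (m : ℕ) : par m ≤ m - 1 := Nat.unpair_left_le _

lemma rho_pos (t : Bool) : 0 < rho t := by unfold rho; split_ifs <;> norm_num

lemma rho_le (t : Bool) : rho t ≤ 2 := by unfold rho; split_ifs <;> norm_num

lemma dd_pos (m : ℕ) : 0 < dd m := by
  have := sc_pos m
  unfold dd; split_ifs <;> omega

lemma dd_lt (m : ℕ) : dd m < bl m := by
  have := sc_pos m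
  unfold dd bl; split_ifs <;> omega

lemma lk_nonneg (m : ℕ) : 0 ≤ lk m := by unfold lk; split_ifs <;> positivity

lemma lk_le (m : ℕ) : lk m ≤ 1 / 256 := by
  unfold lk; split_ifs
  · norm_num
  · calc (1 / 256 : ℝ) ^ sc m ≤ (1 / 256) ^ 1 :=
          pow_le_pow_of_le_one (by norm_num) (by norm_num) (sc_pos m)
      _ = _ := by norm_num

lemma lk_le' {n m : ℕ} (h : n < m) : lk m ≤ (1 / 256) ^ sc (n + 1) := by
  unfold lk; split_ifs
  · positivity
  · exact pow_le_pow_of_le_one (by norm_num) (by norm_num) (sc_strictMono.monotone h)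

lemma abs_cf_le (m : ℕ) (z : ZMod (bl m)) : |cf m z| ≤ lk m := by
  unfold cf; split_ifs
  · rw [abs_of_nonneg (lk_nonneg m)]
  · simpa using lk_nonneg m

lemma wt_ne (m : ℕ) (z : ZMod (bl m)) : wt m z ≠ 0 := by
  unfold wt; split_ifs <;> norm_num

lemma abs_wt_le (m : ℕ) (z : ZMod (bl m)) : |wt m z| ≤ 4 := by
  unfold wt; split_ifs <;> norm_num [abs_div]

lemma abs_wt_inv_le (m : ℕ) (z : ZMod (bl m)) : |(wt m z)⁻¹| ≤ 4 := by
  unfold wt; split_ifs <;> norm_num [abs_div]

lemma norm_EE (n i : ℕ) : ‖EE n i‖ = 1 := norm_ev _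

lemma norm_col (i : Ix) : ‖col i‖ ≤ 5 := by
  unfold col
  refine (norm_add_le _ _).trans ?_
  rw [norm_smul, norm_smul, norm_ev, norm_EE, Complex.norm_real, Complex.norm_real,
    Real.norm_eq_abs, Real.norm_eq_abs]
  have := abs_wt_le i.1 i.2
  have := abs_cf_le i.1 i.2
  have := lk_le i.1
  linarith

/-- the operator -/
noncomputable def TT : XX →L[ℂ] XX := Classical.choose (exists_op col 5 norm_col)

lemma TT_ev (i : Ix) : TT (ev i) = col i := Classical.choose_spec (exists_op col 5 norm_col) i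

lemma TT_le (x : XX) : ‖TT x‖ ≤ 5 * ‖x‖ :=
  norm_apply_le_of_cols TT 5 (fun i => by rw [TT_ev]; exact norm_col i) x

lemma le_TT (x : XX) : ‖x‖ ≤ 5 * ‖TT x‖ := by
  have hc : ∀ i : Ix, ‖(((wt i.1 (i.2 - 1))⁻¹ : ℝ) : ℂ) • (ev ⟨i.1, i.2 - 1⟩ : XX)‖ ≤ 4 := by
    intro i
    rw [norm_smul, norm_ev, Complex.norm_real, Real.norm_eq_abs, mul_one]
    exact abs_wt_inv_le _ _
  obtain ⟨D, hD⟩ := exists_op _ 4 hc
  have hD4 : ∀ y, ‖D y‖ ≤ 4 * ‖y‖ := norm_apply_le_of_cols D 4 (fun i => by rw [hD]; exact hc i)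
  have h := norm_apply_le_of_cols (D.comp TT - ContinuousLinearMap.id ℂ XX) (1 / 5) (by
    intro i
    have e : (D.comp TT - ContinuousLinearMap.id ℂ XX) (ev i) =
        (cf i.1 i.2 : ℂ) • D (EE (par i.1) 0) := by
      simp only [sub_apply, ContinuousLinearMap.comp_apply,
        ContinuousLinearMap.id_apply, TT_ev, col, map_add, map_smul, hD, add_sub_cancel_right,
        smul_smul]
      rw [← Complex.ofReal_mul, mul_inv_cancel₀ (wt_ne _ _)]
      simp
    rw [e, norm_smul, Complex.norm_real, Real.norm_eq_abs]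
    have a1 := hD4 (EE (par i.1) 0)
    rw [norm_EE] at a1
    have a2 := (abs_cf_le i.1 i.2).trans (lk_le i.1)
    calc _ ≤ (1 / 256 : ℝ) * (4 * 1) := mul_le_mul a2 a1 (norm_nonneg _) (by norm_num)
      _ ≤ _ := by norm_num) x
  have h2 := hD4 (TT x)
  have h3 := norm_sub_le (D (TT x)) (D (TT x) - x)
  rw [sub_sub_cancel] at h3
  have h4 : (D.comp TT - ContinuousLinearMap.id ℂ XX) x = D (TT x) - x := rfl
  rw [h4] at h
  linarith

lemma TT_EE_zero (n : ℕ) :
    TT (EE n 0) = ((-1 / 4 : ℝ) : ℂ) • EE n 1 + (lk n : ℂ) • EE (par n) 0 := by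
  unfold EE
  rw [TT_ev]
  simp [col, wt, cf, EE]

lemma cast_ne_zero {n i : ℕ} (h0 : 0 < i) (h : i < bl n) : (i : ZMod (bl n)) ≠ 0 := by
  intro hh
  have := congrArg ZMod.val hh
  rw [ZMod.val_cast_of_lt h, ZMod.val_zero] at this
  omega

lemma TT_EE_low {n i : ℕ} (h0 : 0 < i) (h : i < dd n) :
    TT (EE n i) = ((1 / 4 : ℝ) : ℂ) • EE n (i + 1) := by
  have hi : i < bl n := h.trans (dd_lt n)
  unfold EE
  rw [TT_ev]
  simp [col, wt, cf, cast_ne_zero h0 hi, ZMod.val_cast_of_lt hi, h]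

lemma TT_EE_high {n i : ℕ} (h0 : dd n ≤ i) (hi : i < bl n) :
    TT (EE n i) = ((4 : ℝ) : ℂ) • EE n (i + 1) := by
  have h1 : 0 < i := lt_of_lt_of_le (dd_pos n) h0
  unfold EE
  rw [TT_ev]
  simp [col, wt, cf, cast_ne_zero h1 hi, ZMod.val_cast_of_lt hi, not_lt.2 h0]

lemma pow_EE_low {n : ℕ} (t : ℕ) (h : 1 + t ≤ dd n) :
    (TT ^ t) (EE n 1) = ((1 / 4 : ℝ) : ℂ) ^ t • EE n (1 + t) := by
  induction t with
  | zero => simp
  | succ t ih =>
    rw [pow_succ_apply, ih (by omega), map_smul, TT_EE_low (by omega) (by omega), smul_smul,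
      pow_succ, add_assoc]

lemma pow_EE_high {n : ℕ} (t : ℕ) (h : dd n + t ≤ bl n) :
    (TT ^ t) (EE n (dd n)) = ((4 : ℝ) : ℂ) ^ t • EE n (dd n + t) := by
  induction t with
  | zero => simp
  | succ t ih =>
    rw [pow_succ_apply, ih (by omega), map_smul, TT_EE_high (by omega) (by omega), smul_smul,
      pow_succ, add_assoc]

lemma EE_bl (n : ℕ) : EE n (bl n) = EE n 0 := by simp [EE]

lemma weight_prod (n : ℕ) : (4 : ℝ) ^ (bl n - dd n) * (1 / 4) ^ dd n = rho (ty n) ^ bl n := by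
  unfold dd rho bl
  split_ifs
  · have : 64 * sc n - 16 * sc n = 48 * sc n := by omega
    rw [this, pow_mul, pow_mul, pow_mul, ← mul_pow]; norm_num
  · have : 64 * sc n - 48 * sc n = 16 * sc n := by omega
    rw [this, pow_mul, pow_mul, pow_mul, ← mul_pow]; norm_num

lemma weight_prod' {m : ℕ} (hm : m ≠ 0) :
    (4 : ℝ) ^ (bl m - dd m) * lk m * rho (!ty m) ^ dd m = (2 ^ 72) ^ sc m := by
  unfold dd rho bl lk
  rw [if_neg hm]
  cases ty m
  · have : 64 * sc m - 48 * sc m = 16 * sc m := by omega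
    simp only [Bool.false_eq_true, if_false, Bool.not_false, if_true]
    rw [this, pow_mul, pow_mul, ← mul_pow, ← mul_pow]; norm_num
  · have : 64 * sc m - 16 * sc m = 48 * sc m := by omega
    simp only [Bool.false_eq_true, if_false, Bool.not_true, if_true]
    rw [this, pow_mul, pow_mul, ← mul_pow, ← mul_pow]; norm_num

lemma key (n : ℕ) : (TT ^ bl n) (EE n (dd n)) + (rho (ty n) : ℂ) ^ bl n • EE n (dd n) =
    ((4 : ℝ) : ℂ) ^ (bl n - dd n) • (TT ^ (dd n - 1)) ((lk n : ℂ) • EE (par n) 0) := by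
  have h1 := dd_pos n
  have h2 := dd_lt n
  have e : bl n = (dd n - 1) + (1 + (bl n - dd n)) := by omega
  have e2 : dd n + (bl n - dd n) = bl n := by omega
  have e3 : 1 + (dd n - 1) = dd n := by omega
  have w : (rho (ty n) : ℂ) ^ bl n =
      ((4 : ℝ) : ℂ) ^ (bl n - dd n) * (((1 / 4 : ℝ) : ℂ) ^ (dd n - 1) * ((1 / 4 : ℝ) : ℂ)) := by
    rw [← pow_succ, show dd n - 1 + 1 = dd n by omega]
    exact_mod_cast (weight_prod n).symm
  nth_rewrite 1 [e]
  rw [pow_add_apply, pow_add_apply, pow_EE_high _ e2.le, e2, EE_bl, pow_one, map_smul,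
    TT_EE_zero, map_smul, map_add, map_smul, pow_EE_low _ e3.le, e3, w]
  push_cast
  module

lemma cyc {Z : Submodule ℂ XX} (hZ : Inv TT Z) {n : ℕ} (hη : (lk n : ℂ) • EE (par n) 0 ∈ Z)
    {i : ℕ} (h0 : EE n i ∈ Z) (z : ZMod (bl n)) : (ev ⟨n, z⟩ : XX) ∈ Z := by
  have step : ∀ u : ZMod (bl n), (ev ⟨n, u⟩ : XX) ∈ Z → (ev ⟨n, u + 1⟩ : XX) ∈ Z := by
    intro u hu
    have h1 := hZ _ hu
    rw [TT_ev, col] at h1
    have h2 : (cf n u : ℂ) • EE (par n) 0 ∈ Z := by
      unfold cf; split_ifs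
      · exact hη
      · simp
    have h3 := Z.sub_mem h1 h2
    rw [add_sub_cancel_right] at h3
    have hw : (wt n u : ℂ) ≠ 0 := by exact_mod_cast wt_ne n u
    exact (Z.smul_mem_iff hw).1 h3
  have all : ∀ k : ℕ, (ev ⟨n, (i : ZMod (bl n)) + k⟩ : XX) ∈ Z := by
    intro k
    induction k with
    | zero => simpa [EE] using h0
    | succ k ih =>
      have := step _ ih
      rwa [add_assoc, ← Nat.cast_succ] at this
  have := all (z - i).val
  rwa [ZMod.natCast_zmod_val, add_sub_cancel] at this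

lemma block_pre {Z : Submodule ℂ XX} (hZ : Inv TT Z) {n : ℕ}
    (hη : (lk n : ℂ) • EE (par n) 0 ∈ Z) (z : ZMod (bl n)) :
    (TT ^ bl n) (ev ⟨n, z⟩) + (rho (ty n) : ℂ) ^ bl n • ev ⟨n, z⟩ ∈ Z := by
  refine cyc (hZ.pre (bl n) _) (hZ.le_pre _ _ hη) (i := dd n) ?_ z
  rw [mem_pre, key]
  exact Z.smul_mem _ (hZ.pow _ hη)

/-- two-modulus periodic vectors -/
noncomputable def KK (N : ℕ) : Submodule ℂ XX := EK TT 2 N ⊔ EK TT (1 / 2) N

lemma KK_eq (t : Bool) (N : ℕ) : KK N = EK TT (rho t) N ⊔ EK TT (rho (!t)) N := by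
  cases t
  · simp [KK, rho, sup_comm]
  · simp [KK, rho]

lemma inv_KK (N : ℕ) : Inv TT (KK N) := (inv_EK _ _ _).sup (inv_EK _ _ _)

lemma KK_mono {N N' : ℕ} (h : N ∣ N') : KK N ≤ KK N' := sup_le_sup (EK_mono _ _ h) (EK_mono _ _ h)

lemma two_bl_dvd_bl {j m : ℕ} (h : j < m) : 2 * bl j ∣ bl m := by
  obtain ⟨c, hc⟩ := sc_dvd h
  exact ⟨4 * c, by unfold bl; rw [hc]; ring⟩

lemma two_bl_dvd_dd {j m : ℕ} (h : j < m) : 2 * bl j ∣ dd m := by
  obtain ⟨c, hc⟩ := sc_dvd h
  unfold dd; split_ifs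
  · exact ⟨c, by unfold bl; rw [hc]; ring⟩
  · exact ⟨3 * c, by unfold bl; rw [hc]; ring⟩

lemma block_mem_KK (n : ℕ) : ∀ z : ZMod (bl n), (ev ⟨n, z⟩ : XX) ∈ KK (2 * bl n) := by
  induction n using Nat.strong_induction_on with
  | _ n ih =>
    intro z
    have hη : (lk n : ℂ) • EE (par n) 0 ∈ KK (bl n) := by
      rcases Nat.eq_zero_or_pos n with rfl | hn
      · simp [lk]
      · have hp : par n < n := by have := par_le n; omega
        exact Submodule.smul_mem _ _ (KK_mono (two_bl_dvd_bl hp) (ih _ hp _))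
    have h := block_pre (inv_KK _) hη z
    rw [KK_eq (ty n)] at h ⊢
    obtain ⟨y₁, h₁, y₂, h₂, e⟩ := Submodule.mem_sup.1 h
    have h3 := lift_step (rho_pos _) (rho_pos _) e.symm h₁ h₂
    have d : bl n ∣ 2 * bl n := Dvd.intro_left 2 rfl
    have := Submodule.add_mem _ (Submodule.add_mem _ (Submodule.mem_sup_left h3)
      (Submodule.mem_sup_left (T := EK TT (rho (!ty n)) (2 * bl n))
        (Submodule.smul_mem _ ((rho (ty n) : ℂ) ^ bl n + (rho (ty n) : ℂ) ^ bl n)⁻¹
          (EK_mono _ _ d h₁))))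
      (Submodule.mem_sup_right
        (Submodule.smul_mem _ ((rho (ty n) : ℂ) ^ bl n + (rho (!ty n) : ℂ) ^ bl n)⁻¹
          (EK_mono _ _ d h₂)))
    convert this using 1
    abel

lemma link_mem_KK (n : ℕ) : (lk n : ℂ) • EE (par n) 0 ∈ KK (bl n) := by
  rcases Nat.eq_zero_or_pos n with rfl | hn
  · simp [lk]
  · have hp : par n < n := by have := par_le n; omega
    exact Submodule.smul_mem _ _ (KK_mono (two_bl_dvd_bl hp) (block_mem_KK _ _))

lemma step_A (m : ℕ) :
    ((4 : ℝ) : ℂ) ^ (bl m - dd m) • (TT ^ (dd m - 1)) ((lk m : ℂ) • EE (par m) 0) -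
      ((rho (ty m) : ℂ) ^ bl m + (rho (!ty m) : ℂ) ^ bl m) • EE m (dd m) ∈ ES TT (rho (ty m)) := by
  have h : ((4 : ℝ) : ℂ) ^ (bl m - dd m) • (TT ^ (dd m - 1)) ((lk m : ℂ) • EE (par m) 0) ∈
      KK (bl m) := Submodule.smul_mem _ _ ((inv_KK _).pow _ (link_mem_KK m))
  rw [KK_eq (ty m)] at h
  obtain ⟨y₁, h₁, y₂, h₂, e⟩ := Submodule.mem_sup.1 h
  have h3 := lift_step (rho_pos _) (rho_pos _) ((key m).trans e.symm) h₁ h₂
  have hb := bl_pos m
  have h4 := EK_le_ES TT (rho_pos _) (by omega) h3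
  have h5 := EK_le_ES TT (rho_pos _) hb h₁
  have n2 := pow_add_ne (rho_pos (ty m)) (rho_pos (!ty m)) (bl m)
  rw [← e]
  set σ := (rho (ty m) : ℂ) ^ bl m + (rho (!ty m) : ℂ) ^ bl m
  set τ := ((rho (ty m) : ℂ) ^ bl m + (rho (ty m) : ℂ) ^ bl m)⁻¹
  have := Submodule.sub_mem _ (Submodule.smul_mem _ (1 - σ * τ) h5) (Submodule.smul_mem _ σ h4)
  convert this using 1
  have a2 : y₂ = σ • σ⁻¹ • y₂ := by rw [smul_smul, mul_inv_cancel₀ n2, one_smul]
  nth_rewrite 1 [a2]
  module

lemma exists_child (n : ℕ) (t : Bool) (N : ℕ) : ∃ m, n < m ∧ N ≤ m ∧ par m = n ∧ ty m = t := by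
  refine ⟨Nat.pair n (2 * N + if t then 0 else 1) + 1, ?_, ?_, ?_, ?_⟩
  · have := Nat.left_le_pair n (2 * N + if t then 0 else 1); omega
  · have := Nat.right_le_pair n (2 * N + if t then 0 else 1); omega
  · simp [par]
  · cases t <;> simp [ty]

lemma block_mem_closure (t : Bool) (n : ℕ) :
    ∀ z : ZMod (bl n), (ev ⟨n, z⟩ : XX) ∈ (ES TT (rho t)).topologicalClosure := by
  induction n using Nat.strong_induction_on with
  | _ n ih =>
    set Z := (ES TT (rho t)).topologicalClosure with hZdef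
    have hZ : Inv TT Z := (inv_ES _ _).closure
    have hle : ES TT (rho t) ≤ Z := Submodule.le_topologicalClosure _
    have hη : (lk n : ℂ) • EE (par n) 0 ∈ Z := by
      rcases Nat.eq_zero_or_pos n with rfl | hn
      · simp [lk]
      · have hp : par n < n := by have := par_le n; omega
        exact Submodule.smul_mem _ _ (ih _ hp _)
    by_cases ht : ty n = t
    · refine cyc hZ hη (i := dd n) ?_
      have h1 := step_A n
      rw [ht] at h1
      have h2 := Z.sub_mem (Z.smul_mem (((4 : ℝ) : ℂ) ^ (bl n - dd n)) (hZ.pow (dd n - 1) hη))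
        (hle h1)
      rw [sub_sub_cancel] at h2
      exact (Z.smul_mem_iff (pow_add_ne (rho_pos _) (rho_pos _) _)).1 h2
    · have ht' : ty n = !t := by cases t <;> simpa using ht
      refine cyc hZ hη (i := 0) ?_
      set η := EE n 0 with hηdef
      set r' : ℂ := (rho (!t) : ℂ) with hr'
      have p1 : (TT ^ bl n) η + r' ^ bl n • η ∈ Z := by
        have := block_pre hZ hη ((0 : ℕ) : ZMod (bl n))
        rwa [ht'] at this
      have p2 : (TT ^ (2 * bl n)) η - r' ^ (2 * bl n) • η ∈ Z := by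
        have := Z.sub_mem (hZ.pow (bl n) p1) (Z.smul_mem (r' ^ bl n) p1)
        convert this using 1
        rw [two_mul, pow_add_apply, pow_add, map_add, map_smul]
        module
      have p3 : ∀ c : ℕ, (TT ^ (2 * bl n * c)) η - r' ^ (2 * bl n * c) • η ∈ Z := by
        intro c
        induction c with
        | zero => simp
        | succ c ihc =>
          have := Z.add_mem (hZ.pow (2 * bl n * c) p2) (Z.smul_mem (r' ^ (2 * bl n)) ihc)
          convert this using 1
          rw [mul_add, mul_one, pow_add_apply, pow_add, map_sub, map_smul]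
          module
      have p4 : ∀ N : ℕ, ∃ u ∈ Z, ‖η - u‖ ≤ 10 * (1 / 256) ^ N := by
        intro N
        obtain ⟨m, hm1, hm2, hm3, hm4⟩ := exists_child n t N
        have hm0 : m ≠ 0 := by omega
        have h1 := step_A m
        have h6 := weight_prod' hm0
        rw [hm3, hm4] at h1
        rw [hm4] at h6
        have h2 := hZ _ (hle h1)
        obtain ⟨c, hc⟩ := two_bl_dvd_dd hm1
        have h3 := p3 c
        rw [← hc] at h3
        have hd := dd_pos m
        rw [map_sub, map_smul, ← pow_succ_apply, show dd m - 1 + 1 = dd m by omega,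
          map_smul, map_smul] at h2
        set σ := (rho t : ℂ) ^ bl m + r' ^ bl m with hσ
        set κ : ℂ := (((2 ^ 72 : ℝ) ^ sc m : ℝ) : ℂ) with hκ
        have hκ' : ((4 : ℝ) : ℂ) ^ (bl m - dd m) * (lk m : ℂ) * r' ^ dd m = κ := by
          rw [hκ, hr']; exact_mod_cast h6
        have hκ0 : κ ≠ 0 := by rw [hκ, Complex.ofReal_ne_zero]; positivity
        have h4 : κ • η - σ • TT (EE m (dd m)) ∈ Z := by
          have := Z.sub_mem h2
            (Z.smul_mem (((4 : ℝ) : ℂ) ^ (bl m - dd m) * (lk m : ℂ)) h3)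
          convert this using 1
          rw [← hκ']
          module
        refine ⟨κ⁻¹ • (κ • η - σ • TT (EE m (dd m))), Z.smul_mem _ h4, ?_⟩
        have e : η - κ⁻¹ • (κ • η - σ • TT (EE m (dd m))) = (κ⁻¹ * σ) • TT (EE m (dd m)) := by
          rw [smul_sub, smul_smul, inv_mul_cancel₀ hκ0, one_smul, smul_smul]; abel
        rw [e, norm_smul, norm_mul, norm_inv]
        have n1 : ‖TT (EE m (dd m))‖ ≤ 5 := by
          have := TT_le (EE m (dd m)); rwa [norm_EE, mul_one] at this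
        have n2 : ‖σ‖ ≤ 2 * (2 ^ 64) ^ sc m := by
          have b : ∀ s : Bool, ‖(rho s : ℂ) ^ bl m‖ ≤ (2 ^ 64) ^ sc m := by
            intro s
            rw [norm_pow, Complex.norm_real, Real.norm_eq_abs, abs_of_pos (rho_pos s), ← pow_mul]
            exact pow_le_pow_left₀ (rho_pos s).le (rho_le s) _
          have := norm_add_le ((rho t : ℂ) ^ bl m) (r' ^ bl m)
          have b1 := b t
          have b2 := b (!t)
          linarith
        have n3 : ‖κ‖ = (2 ^ 72) ^ sc m := by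
          rw [hκ, Complex.norm_real, Real.norm_eq_abs, abs_of_pos (by positivity)]
        have n4 : (1 / 256 : ℝ) ^ sc m ≤ (1 / 256) ^ N :=
          pow_le_pow_of_le_one (by norm_num) (by norm_num) (hm2.trans (le_sc m))
        have n5 : ((2 ^ 72 : ℝ) ^ sc m)⁻¹ * (2 ^ 64) ^ sc m = (1 / 256) ^ sc m := by
          rw [← inv_pow, ← mul_pow]; norm_num
        rw [n3]
        calc _ ≤ (((2 ^ 72 : ℝ) ^ sc m)⁻¹ * (2 * (2 ^ 64) ^ sc m)) * 5 := by gcongr
          _ = 10 * (((2 ^ 72 : ℝ) ^ sc m)⁻¹ * (2 ^ 64) ^ sc m) := by ring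
          _ ≤ _ := by rw [n5]; linarith
      have hcl : IsClosed (Z : Set XX) := Submodule.isClosed_topologicalClosure _
      show η ∈ (Z : Set XX)
      rw [← hcl.closure_eq, Metric.mem_closure_iff]
      intro ε hε
      obtain ⟨N, hN⟩ := exists_pow_lt_of_lt_one (show 0 < ε / 10 by positivity)
        (show (1 / 256 : ℝ) < 1 by norm_num)
      obtain ⟨u, hu, hu'⟩ := p4 N
      exact ⟨u, hu, by rw [dist_eq_norm]; linarith⟩

theorem dense_ES (t : Bool) : Dense (ES TT (rho t) : Set XX) :=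
  dense_of_ev_mem _ fun i => block_mem_closure t i.1 i.2

lemma exists_proj (n : ℕ) :
    ∃ P : XX →L[ℂ] XX, ∀ i : Ix, P (ev i) = if i.1 ≤ n then ev i else 0 :=
  exists_op _ 1 (fun i => by split_ifs <;> simp [norm_ev])

theorem cover_TT (x : XX × XX) (n : ℕ) :
    ∃ c : ℕ → ℝ, ∀ l k, sc (n + 1) ≤ k → k ≤ sc (n + 2) → l ∈ Lam TT (EE 0 0) x k →
      ∃ i, i < 10 ^ 9 * sc n ∧ l ∈ Set.Icc (c i) (c i + 2 / sc (n + 1)) := by
  choose P hP using exists_proj
  refine cover_scale TT_le le_TT P ?_ ?_ (norm_EE 0 0) ?_ ?_ x n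
  · intro n y
    have := norm_apply_le_of_cols (P n) 1 (fun i => by rw [hP]; split_ifs <;> simp [norm_ev]) y
    simpa using this
  · intro n y
    refine norm_apply_le_of_cols ((P n).comp TT - TT.comp (P n)) _ ?_ y
    intro i
    have hpar : par i.1 ≤ i.1 := (par_le _).trans (Nat.sub_le _ _)
    simp only [sub_apply, ContinuousLinearMap.comp_apply]
    by_cases h : i.1 ≤ n
    · rw [hP, if_pos h, TT_ev, col, map_add, map_smul, map_smul, EE, hP, hP, if_pos h,
        if_pos (hpar.trans h), sub_self, norm_zero]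
      positivity
    · rw [hP, if_neg h, TT_ev, col, map_add, map_smul, map_smul, EE, hP, hP, if_neg h, map_zero,
        smul_zero, zero_add, sub_zero, norm_smul, Complex.norm_real, Real.norm_eq_abs]
      have a1 := (abs_cf_le i.1 i.2).trans (lk_le' (not_le.1 h))
      split_ifs
      · rw [norm_ev, mul_one]; exact a1
      · simp
  · intro n
    rw [EE, hP, if_pos (Nat.zero_le n)]
  · intro n y
    have hp := sc_pos n
    refine spl_of_poly (by omega) ?_
    set D := 128 * sc n with hD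
    refine eq_zero_of_cols
      (((TT ^ D).comp (TT ^ D - ((2 : ℝ) : ℂ) ^ D • ContinuousLinearMap.id ℂ XX) -
        ((1 / 2 : ℝ) : ℂ) ^ D • (TT ^ D - ((2 : ℝ) : ℂ) ^ D • ContinuousLinearMap.id ℂ XX)).comp
        (P n)) ?_ y
    intro i
    have hmem : P n (ev i) ∈ KK D := by
      rw [hP]; split_ifs with h
      · refine KK_mono ?_ (block_mem_KK i.1 i.2)
        have e : D = 2 * bl n := by rw [hD, bl]; ring
        rw [e]
        rcases h.lt_or_eq with h' | h'
        · exact Dvd.dvd.mul_left (two_bl_dvd_bl h') 2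
        · rw [h']
      · simp
    exact poly_of_mem hmem

end Pool.Agent.Lib.MP_b6a3e4_an.Sz
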