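import Mathlib

/-!
Sets of strong measure zero of scalars always have a common hypercyclic vector.
-/

set_option autoImplicit false

namespace Pool.Agent.Lib.MP_b6a3e4_an.Sz

open Metric Filter Topology

/-- `A` is covered by intervals of lengths `ε n` -/
def Cov (ε : ℕ → ℝ) (A : Set ℝ) : Prop := ∃ c : ℕ → ℝ, A ⊆ ⋃ n, Set.Icc (c n) (c n + ε n)

section
variable {X : Type} [PseudoMetricSpace X]

/-- the ball `B'` refines `B` and serves the interval `[c, c + δ]` -/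
def Serves (K : Set ℝ) (G : Set (ℝ × X)) (δ c : ℝ) (B B' : X × ℝ) : Prop :=
  closedBall B'.1 B'.2 ⊆ ball B.1 B.2 ∧
    ∀ l ∈ K, l ∈ Set.Icc c (c + δ) → ∀ y ∈ closedBall B'.1 B'.2, (l, y) ∈ G

lemma step_one {K : Set ℝ} (hK : IsCompact K) {G : Set (ℝ × X)} (hG : IsOpen G)
    (hd : ∀ l ∈ K, Dense {y | (l, y) ∈ G}) {β : ℝ} (hβ : 0 < β) (B : X × ℝ) (hB : 0 < B.2) :
    ∃ δ, 0 < δ ∧ ∃ S : Set (X × ℝ), S.Finite ∧ (∀ B' ∈ S, 0 < B'.2 ∧ B'.2 ≤ β) ∧
      ∀ c, ∃ B' ∈ S, Serves K G δ c B B' := by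
  classical
  have loc : ∀ l : ℝ, ∃ η : ℝ, ∃ B' : X × ℝ, 0 < η ∧ 0 < B'.2 ∧ B'.2 ≤ β ∧
      closedBall B'.1 B'.2 ⊆ ball B.1 B.2 ∧
      (l ∈ K → ∀ l' ∈ ball l (2 * η), ∀ y ∈ closedBall B'.1 B'.2, (l', y) ∈ G) := by
    intro l
    by_cases hl : l ∈ K
    · obtain ⟨y, hy1, hy2⟩ := (hd l hl).inter_open_nonempty (ball B.1 B.2) isOpen_ball
        ⟨B.1, mem_ball_self hB⟩
      obtain ⟨r, hr, h1⟩ := Metric.isOpen_iff.1 hG (l, y) hy2
      obtain ⟨s, hs, h2⟩ := Metric.isOpen_iff.1 isOpen_ball y hy1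
      have hm : 0 < min (min (r / 2) (s / 2)) β := by positivity
      have m1 : min (min (r / 2) (s / 2)) β ≤ r / 2 := (min_le_left _ _).trans (min_le_left _ _)
      have m2 : min (min (r / 2) (s / 2)) β ≤ s / 2 := (min_le_left _ _).trans (min_le_right _ _)
      refine ⟨r / 2, (y, min (min (r / 2) (s / 2)) β), by positivity, hm, min_le_right _ _,
        (closedBall_subset_ball (by linarith)).trans h2, fun _ l' hl' z hz => h1 ?_⟩
      rw [mem_ball, Prod.dist_eq, max_lt_iff]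
      rw [mem_ball] at hl'
      rw [mem_closedBall] at hz
      constructor
      · show dist l' l < r
        linarith
      · show dist z y < r
        have : dist z y ≤ min (min (r / 2) (s / 2)) β := hz
        linarith
    · refine ⟨1, (B.1, min (B.2 / 2) β), one_pos, by positivity, min_le_right _ _,
        closedBall_subset_ball ?_, fun h => absurd h hl⟩
      have := min_le_left (B.2 / 2) β
      show min (B.2 / 2) β < B.2
      linarith
  choose η D h1 h2 h3 h4 h5 using loc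
  obtain ⟨t, ht1, ht2⟩ := hK.elim_nhds_subcover (fun l => ball l (η l))
    (fun l _ => ball_mem_nhds l (h1 l))
  have hδ : ∃ δ, 0 < δ ∧ ∀ l ∈ t, δ ≤ η l := by
    clear ht1 ht2
    induction t using Finset.induction_on with
    | empty => exact ⟨1, one_pos, by simp⟩
    | insert a s _ ih =>
      obtain ⟨δ, g1, g2⟩ := ih
      refine ⟨min δ (η a), lt_min g1 (h1 a), fun l hl => ?_⟩
      rcases Finset.mem_insert.1 hl with rfl | hl
      · exact min_le_right _ _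
      · exact (min_le_left _ _).trans (g2 l hl)
  obtain ⟨δ, g1, g2⟩ := hδ
  refine ⟨δ, g1, D '' (insert 0 (t : Set ℝ)), (t.finite_toSet.insert 0).image D, ?_, ?_⟩
  · rintro _ ⟨l, -, rfl⟩
    exact ⟨h2 l, h3 l⟩
  · intro c
    by_cases he : ∃ l₀ ∈ K, l₀ ∈ Set.Icc c (c + δ)
    · obtain ⟨l₀, a1, a2⟩ := he
      obtain ⟨l, b1, b2⟩ := Set.mem_iUnion₂.1 (ht2 a1)
      refine ⟨D l, ⟨l, Or.inr b1, rfl⟩, h4 l, fun l' _ c2 => h5 l (ht1 l b1) l' ?_⟩
      rw [mem_ball, Real.dist_eq] at b2 ⊢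
      have := g2 l b1
      rw [abs_lt] at b2 ⊢
      obtain ⟨a3, a4⟩ := a2
      obtain ⟨c3, c4⟩ := c2
      constructor <;> linarith [b2.1, b2.2]
    · exact ⟨D 0, ⟨0, Or.inl rfl, rfl⟩, h4 0, fun l' c1 c2 => absurd ⟨l', c1, c2⟩ he⟩

lemma Serves.mono {K : Set ℝ} {G : Set (ℝ × X)} {δ δ' c : ℝ} {B B' : X × ℝ}
    (h : Serves K G δ c B B') (hδ : δ' ≤ δ) : Serves K G δ' c B B' :=
  ⟨h.1, fun l h1 h2 => h.2 l h1 ⟨h2.1, by linarith [h2.2]⟩⟩

lemma step_all {K : Set ℝ} (hK : IsCompact K) {G : Set (ℝ × X)} (hG : IsOpen G)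
    (hd : ∀ l ∈ K, Dense {y | (l, y) ∈ G}) {β : ℝ} (hβ : 0 < β) (S : Set (X × ℝ))
    (hS : S.Finite) : (∀ B ∈ S, 0 < B.2) →
    ∃ δ, 0 < δ ∧ ∃ S' : Set (X × ℝ), S'.Finite ∧ (∀ B' ∈ S', 0 < B'.2 ∧ B'.2 ≤ β) ∧
      ∀ B ∈ S, ∀ c, ∃ B' ∈ S', Serves K G δ c B B' := by
  induction S, hS using Set.Finite.induction_on with
  | empty => exact fun _ => ⟨1, one_pos, ∅, Set.finite_empty, by simp, by simp⟩
  | insert _ _ ih =>
    rename_i a s _ _
    intro hp
    obtain ⟨δ, g1, S', g2, g3, g4⟩ := ih (fun B hB => hp B (Or.inr hB))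
    obtain ⟨δ', k1, S'', k2, k3, k4⟩ := step_one hK hG hd hβ a (hp a (Or.inl rfl))
    refine ⟨min δ δ', lt_min g1 k1, S' ∪ S'', g2.union k2, ?_, ?_⟩
    · rintro B' (h | h)
      · exact g3 B' h
      · exact k3 B' h
    · rintro B (rfl | hB) c
      · obtain ⟨B', m1, m2⟩ := k4 c
        exact ⟨B', Or.inr m1, m2.mono (min_le_right _ _)⟩
      · obtain ⟨B', m1, m2⟩ := g4 B hB c
        exact ⟨B', Or.inl m1, m2.mono (min_le_left _ _)⟩

theorem common_point [CompleteSpace X] (x₀ : X) (K : ℕ → Set ℝ) (hK : ∀ k, IsCompact (K k))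
    (G : ℕ → Set (ℝ × X)) (hG : ∀ k, IsOpen (G k))
    (hd : ∀ k, ∀ l ∈ K k, Dense {y | (l, y) ∈ G k}) {A : Set ℝ}
    (hA : ∀ ε : ℕ → ℝ, (∀ n, 0 < ε n) → Cov ε A) :
    ∃ x : X, ∀ k, ∀ l ∈ A, l ∈ K k → (l, x) ∈ G k := by
  classical
  let St : Type := {S : Set (X × ℝ) // S.Finite ∧ ∀ B ∈ S, 0 < B.2}
  have hstep : ∀ (j : ℕ) (S : St), ∃ δ, 0 < δ ∧ ∃ S' : St,
      (∀ B' ∈ S'.1, B'.2 ≤ 1 / ((j : ℝ) + 1)) ∧
      ∀ B ∈ S.1, ∀ c, ∃ B' ∈ S'.1, Serves (K (Nat.unpair j).1) (G (Nat.unpair j).1) δ c B B' := by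
    intro j S
    obtain ⟨δ, g1, S', g2, g3, g4⟩ := step_all (hK (Nat.unpair j).1) (hG _) (hd _)
      (β := 1 / ((j : ℝ) + 1)) (by positivity) S.1 S.2.1 S.2.2
    exact ⟨δ, g1, ⟨S', g2, fun B hB => (g3 B hB).1⟩, fun B hB => (g3 B hB).2, g4⟩
  choose δ hδ nx hnx1 hnx2 using hstep
  let S : ℕ → St := fun j => Nat.rec ⟨{(x₀, 1)}, Set.finite_singleton _, by simp⟩
    (fun i s => nx i s) j
  have hS : ∀ j, S (j + 1) = nx j (S j) := fun _ => rfl
  have hc : ∀ k, Cov (fun i => δ (Nat.pair k i) (S (Nat.pair k i))) A :=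
    fun k => hA _ (fun i => hδ _ _)
  choose c hc using hc
  have hpath : ∀ (j : ℕ) (B : (S j).1), ∃ B' : (S (j + 1)).1,
      Serves (K (Nat.unpair j).1) (G (Nat.unpair j).1) (δ j (S j))
        (c (Nat.unpair j).1 (Nat.unpair j).2) B.1 B'.1 := by
    intro j B
    obtain ⟨B', m1, m2⟩ := hnx2 j (S j) B.1 B.2 (c (Nat.unpair j).1 (Nat.unpair j).2)
    exact ⟨⟨B', m1⟩, m2⟩
  choose f hf using hpath
  let P : ∀ j : ℕ, (S j).1 := fun j => Nat.rec (motive := fun j => (S j).1) ⟨(x₀, 1), rfl⟩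
    (fun i b => f i b) j
  have hP : ∀ j, Serves (K (Nat.unpair j).1) (G (Nat.unpair j).1) (δ j (S j))
      (c (Nat.unpair j).1 (Nat.unpair j).2) (P j).1 (P (j + 1)).1 := fun j => hf j (P j)
  have hpos : ∀ j, 0 < (P j).1.2 := fun j => (S j).2.2 _ (P j).2
  have hsm : ∀ j, (P (j + 1)).1.2 ≤ 1 / ((j : ℝ) + 1) := fun j => hnx1 j (S j) _ (P (j + 1)).2
  have hnest : ∀ j m, j ≤ m →
      closedBall (P m).1.1 (P m).1.2 ⊆ closedBall (P j).1.1 (P j).1.2 := by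
    intro j m h
    induction m, h using Nat.le_induction with
    | base => exact subset_rfl
    | succ m _ ih => exact ((hP m).1.trans ball_subset_closedBall).trans ih
  have hmem : ∀ j m, j ≤ m → (P m).1.1 ∈ closedBall (P j).1.1 (P j).1.2 :=
    fun j m h => hnest j m h (mem_closedBall_self (hpos m).le)
  have hcau : CauchySeq fun j => (P j).1.1 := by
    rw [Metric.cauchySeq_iff']
    intro ε hε
    obtain ⟨N, hN⟩ := exists_nat_one_div_lt hε
    refine ⟨N + 1, fun n hn => ?_⟩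
    have a1 := hmem (N + 1) n hn
    rw [mem_closedBall] at a1
    exact lt_of_le_of_lt (a1.trans (hsm N)) hN
  obtain ⟨x, hx⟩ := cauchySeq_tendsto_of_complete hcau
  have hxm : ∀ j, x ∈ closedBall (P j).1.1 (P j).1.2 := fun j =>
    isClosed_closedBall.mem_of_tendsto hx (eventually_atTop.2 ⟨j, fun m h => hmem j m h⟩)
  refine ⟨x, fun k l hl hk => ?_⟩
  obtain ⟨i, hi⟩ := Set.mem_iUnion.1 (hc k hl)
  have h := (hP (Nat.pair k i)).2
  rw [Nat.unpair_pair] at h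
  exact h l hk hi x (hxm (Nat.pair k i + 1))

end

section
variable {X : Type} [AddCommGroup X] [Module ℂ X] [TopologicalSpace X] [IsTopologicalAddGroup X]
  [ContinuousSMul ℂ X]

lemma smul_pow_apply (T : X →L[ℂ] X) (z : ℂ) (n : ℕ) (x : X) :
    ((z • T) ^ n) x = z ^ n • (T ^ n) x := by
  induction n generalizing x with
  | zero => simp
  | succ n ih =>
    rw [pow_succ, pow_succ, pow_succ, ContinuousLinearMap.mul_apply, ContinuousLinearMap.mul_apply,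
      ContinuousLinearMap.smul_apply, map_smul, ih, smul_smul, mul_comm]

lemma pow_eigen (T : X →L[ℂ] X) {z : ℂ} {x : X} (h : T x = z • x) (n : ℕ) :
    (T ^ n) x = z ^ n • x := by
  induction n with
  | zero => simp
  | succ n ih =>
    rw [pow_succ', ContinuousLinearMap.mul_apply, ih, map_smul, h, smul_smul, pow_succ]

lemma decay (T : X →L[ℂ] X) {l : ℝ} (hl : 0 < l) {x : X}
    (hx : x ∈ Submodule.span ℂ {x : X | ∃ z : ℂ, ‖z‖ < l⁻¹ ∧ T x = z • x}) :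
    Tendsto (fun n : ℕ => (((l : ℂ) • T) ^ n) x) atTop (𝓝 0) := by
  induction hx using Submodule.span_induction with
  | mem x hx =>
    obtain ⟨z, hz, h⟩ := hx
    have e : ∀ n : ℕ, (((l : ℂ) • T) ^ n) x = ((l : ℂ) * z) ^ n • x := by
      intro n; rw [smul_pow_apply, pow_eigen T h, smul_smul, mul_pow]
    simp only [e]
    have : ‖(l : ℂ) * z‖ < 1 := by
      rw [norm_mul, Complex.norm_real, Real.norm_eq_abs, abs_of_pos hl]
      calc l * ‖z‖ < l * l⁻¹ := mul_lt_mul_of_pos_left hz hl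
        _ = 1 := mul_inv_cancel₀ hl.ne'
    have h2 := (tendsto_pow_atTop_nhds_zero_of_norm_lt_one this).smul_const x
    rwa [zero_smul] at h2
  | zero => simp only [map_zero]; exact tendsto_const_nhds
  | add x y _ _ hx hy =>
    have := hx.add hy
    simpa [map_add] using this
  | smul a x _ hx =>
    have := hx.const_smul a
    simpa [map_smul] using this

lemma back (T : X →L[ℂ] X) {l : ℝ} (hl : 0 < l) {y : X}
    (hy : y ∈ Submodule.span ℂ {x : X | ∃ z : ℂ, l⁻¹ < ‖z‖ ∧ T x = z • x}) :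
    ∃ w : ℕ → X, Tendsto w atTop (𝓝 0) ∧ ∀ n, (((l : ℂ) • T) ^ n) (w n) = y := by
  induction hy using Submodule.span_induction with
  | mem x hx =>
    obtain ⟨z, hz, h⟩ := hx
    have h1 : 1 < ‖(l : ℂ) * z‖ := by
      rw [norm_mul, Complex.norm_real, Real.norm_eq_abs, abs_of_pos hl]
      calc 1 = l * l⁻¹ := (mul_inv_cancel₀ hl.ne').symm
        _ < l * ‖z‖ := mul_lt_mul_of_pos_left hz hl
    have h0 : (l : ℂ) * z ≠ 0 := by
      intro hh; rw [hh, norm_zero] at h1; linarith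
    refine ⟨fun n => (((l : ℂ) * z)⁻¹) ^ n • x, ?_, fun n => ?_⟩
    · have : ‖((l : ℂ) * z)⁻¹‖ < 1 := by rw [norm_inv]; exact inv_lt_one_of_one_lt₀ h1
      have h2 := (tendsto_pow_atTop_nhds_zero_of_norm_lt_one this).smul_const x
      rwa [zero_smul] at h2
    · rw [map_smul, smul_pow_apply, pow_eigen T h, smul_smul, smul_smul, mul_assoc, ← mul_pow,
        ← mul_pow, inv_mul_cancel₀ h0, one_pow, one_smul]
  | zero => exact ⟨fun _ => 0, tendsto_const_nhds, fun n => by simp⟩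
  | add x y _ _ hx hy =>
    obtain ⟨w, a1, a2⟩ := hx
    obtain ⟨w', b1, b2⟩ := hy
    refine ⟨fun n => w n + w' n, by simpa using a1.add b1, fun n => ?_⟩
    rw [map_add, a2, b2]
  | smul a x _ hx =>
    obtain ⟨w, a1, a2⟩ := hx
    refine ⟨fun n => a • w n, by simpa using a1.const_smul a, fun n => ?_⟩
    rw [map_smul, a2]

lemma transitive (T : X →L[ℂ] X) {l : ℝ} (hl : 0 < l)
    (h1 : Dense ((Submodule.span ℂ {x : X | ∃ z : ℂ, ‖z‖ < l⁻¹ ∧ T x = z • x}) : Set X))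
    (h2 : Dense ((Submodule.span ℂ {x : X | ∃ z : ℂ, l⁻¹ < ‖z‖ ∧ T x = z • x}) : Set X))
    {V : Set X} (hV : IsOpen V) (hne : V.Nonempty) :
    Dense {y | ∃ n : ℕ, (((l : ℂ) • T) ^ n) y ∈ V} := by
  rw [dense_iff_inter_open]
  intro U hU hUne
  obtain ⟨x, a1, a2⟩ := h1.inter_open_nonempty U hU hUne
  obtain ⟨y, b1, b2⟩ := h2.inter_open_nonempty V hV hne
  obtain ⟨w, c1, c2⟩ := back T hl b2
  have d1 : Tendsto (fun n => x + w n) atTop (𝓝 x) := by simpa using c1.const_add x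
  have d2 : Tendsto (fun n : ℕ => (((l : ℂ) • T) ^ n) x + y) atTop (𝓝 y) := by
    simpa using (decay T hl a2).add_const y
  obtain ⟨n, e1, e2⟩ := ((d1.eventually (hU.mem_nhds a1)).and (d2.eventually (hV.mem_nhds b1))).exists
  exact ⟨x + w n, e1, n, by rw [map_add, c2]; exact e2⟩

lemma open_hits (T : X →L[ℂ] X) {V : Set X} (hV : IsOpen V) :
    IsOpen {p : ℝ × X | ∃ n : ℕ, (((p.1 : ℂ) • T) ^ n) p.2 ∈ V} := by
  have : {p : ℝ × X | ∃ n : ℕ, (((p.1 : ℂ) • T) ^ n) p.2 ∈ V} =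
      ⋃ n : ℕ, (fun p : ℝ × X => (p.1 : ℂ) ^ n • (T ^ n) p.2) ⁻¹' V := by
    ext p
    simp only [Set.mem_iUnion, Set.mem_preimage, smul_pow_apply]
    rfl
  rw [this]
  refine isOpen_iUnion fun n => hV.preimage ?_
  exact ((Complex.continuous_ofReal.comp continuous_fst).pow n).smul
    ((T ^ n).continuous.comp continuous_snd)

end

theorem common_vector {X : Type} [AddCommGroup X] [Module ℂ X] [PseudoMetricSpace X]
    [IsTopologicalAddGroup X] [ContinuousSMul ℂ X] [CompleteSpace X]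
    [TopologicalSpace.SeparableSpace X] (T : X →L[ℂ] X) {p q : ℝ} (hp : 0 ≤ p)
    (hH : ∀ l : ℝ, p < l → l < q →
      Dense ((Submodule.span ℂ {x : X | ∃ z : ℂ, ‖z‖ < l⁻¹ ∧ T x = z • x}) : Set X) ∧
      Dense ((Submodule.span ℂ {x : X | ∃ z : ℂ, l⁻¹ < ‖z‖ ∧ T x = z • x}) : Set X))
    {A : Set ℝ} (hsub : A ⊆ Set.Ioo p q) (hA : ∀ ε : ℕ → ℝ, (∀ n, 0 < ε n) → Cov ε A) :
    ∃ x : X, ∀ l ∈ A, Dense (Set.range (fun n : ℕ => (((l : ℂ) • T) ^ n) x)) := by
  haveI : Nonempty X := ⟨0⟩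
  let d := TopologicalSpace.denseSeq X
  have hd : DenseRange d := TopologicalSpace.denseRange_denseSeq X
  let ρ : ℕ → ℝ := fun k => 1 / (((Nat.unpair k).2 : ℝ) + 1)
  have hρ : ∀ k, 0 < ρ k := fun k => by positivity
  obtain ⟨x, hx⟩ := common_point (0 : X) (fun k => Set.Icc (p + ρ k) (q - ρ k))
    (fun _ => isCompact_Icc)
    (fun k => {r : ℝ × X | ∃ n : ℕ, (((r.1 : ℂ) • T) ^ n) r.2 ∈ ball (d (Nat.unpair k).1) (ρ k)})
    (fun k => open_hits T isOpen_ball) (fun k l hl => by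
      have a1 : p < l := by linarith [hl.1, hρ k]
      have a2 : l < q := by linarith [hl.2, hρ k]
      exact transitive T (by linarith) (hH l a1 a2).1 (hH l a1 a2).2 isOpen_ball
        ⟨_, mem_ball_self (hρ k)⟩) hA
  refine ⟨x, fun l hl => Metric.dense_iff.2 fun y r hr => ?_⟩
  obtain ⟨a1, a2⟩ := hsub hl
  obtain ⟨i, hi⟩ := hd.exists_dist_lt y (half_pos hr)
  obtain ⟨t, ht⟩ := exists_nat_one_div_lt
    (show 0 < min (r / 2) (min (l - p) (q - l)) by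
      refine lt_min (half_pos hr) (lt_min ?_ ?_) <;> linarith)
  have b1 := ht.trans_le (min_le_left _ _)
  have b2 := ht.trans_le ((min_le_right _ _).trans (min_le_left _ _))
  have b3 := ht.trans_le ((min_le_right _ _).trans (min_le_right _ _))
  have e : ρ (Nat.pair i t) = 1 / ((t : ℝ) + 1) := by simp only [ρ, Nat.unpair_pair]
  obtain ⟨n, hn⟩ := hx (Nat.pair i t) l hl (by rw [e]; constructor <;> linarith)
  rw [e, Nat.unpair_pair, mem_ball] at hn
  refine ⟨_, ?_, n, rfl⟩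
  rw [mem_ball]
  have := dist_triangle_right ((((l : ℂ) • T) ^ n) x) y (d i)
  linarith

end Pool.Agent.Lib.MP_b6a3e4_an.Sz
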