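import Mathlib
import Pool.Agent.Lib.MP_b6a3e4_an.SzModel
import Pool.Agent.Lib.MP_b6a3e4_an.SzPos

/-!
A set of scalars that is not of strong measure zero has no common hypercyclic vector for a suitable
operator with the two density properties.
-/

set_option autoImplicit false

namespace Pool.Agent.Lib.MP_b6a3e4_an.Sz

open Metric Filter Topology

lemma exists_big (ε : ℕ → ℝ) (hε : ∀ n, 0 < ε n) (n N : ℕ) :
    ∃ B : ℕ, 0 < B ∧ ∀ i, i < N → 2 / (B : ℝ) ≤ ε (Nat.pair n i) := by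
  induction N with
  | zero => exact ⟨1, one_pos, fun i hi => absurd hi (Nat.not_lt_zero i)⟩
  | succ N ih =>
    obtain ⟨B, hB, h⟩ := ih
    obtain ⟨C, hC⟩ := exists_nat_ge (2 / ε (Nat.pair n N))
    have hBr : (0 : ℝ) < B := by exact_mod_cast hB
    have hCr : (0 : ℝ) ≤ C := Nat.cast_nonneg C
    refine ⟨B + C, by omega, fun i hi => ?_⟩
    rcases Nat.lt_succ_iff_lt_or_eq.1 hi with hi | rfl
    · refine le_trans ?_ (h i hi)
      rw [Nat.cast_add]
      exact div_le_div_of_nonneg_left (by norm_num) hBr (by linarith)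
    · have h0 := hε (Nat.pair n i)
      rw [div_le_iff₀ h0] at hC
      rw [Nat.cast_add, div_le_iff₀ (by linarith)]
      nlinarith

lemma exists_scales (ε : ℕ → ℝ) (hε : ∀ n, 0 < ε n) :
    ∃ s : ℕ → ℕ, (∀ n, 0 < s n) ∧ (∀ n, 8 * s n ∣ s (n + 1)) ∧
      ∀ n i, i < 10 ^ 9 * s n → 2 / (s (n + 1) : ℝ) ≤ ε (Nat.pair n i) := by
  choose B hB hB' using exists_big ε hε
  let s : ℕ → ℕ := fun n => Nat.rec 1 (fun j t => 8 * t * B j (10 ^ 9 * t)) n
  have hs : ∀ n, s (n + 1) = 8 * s n * B n (10 ^ 9 * s n) := fun _ => rfl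
  have hp : ∀ n, 0 < s n := by
    intro n
    induction n with
    | zero => exact one_pos
    | succ n ih => rw [hs]; exact Nat.mul_pos (by omega) (hB _ _)
  refine ⟨s, hp, fun n => ⟨_, hs n⟩, fun n i hi => le_trans ?_ (hB' n _ i hi)⟩
  have h1 : B n (10 ^ 9 * s n) ≤ s (n + 1) := by
    rw [hs]
    exact Nat.le_mul_of_pos_left _ (by have := hp n; omega)
  have h2 : (0 : ℝ) < B n (10 ^ 9 * s n) := by exact_mod_cast hB _ _
  exact div_le_div_of_nonneg_left (by norm_num) h2 (by exact_mod_cast h1)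

/-- along suitable scales, the scalars for which a given vector is hypercyclic are covered -/
theorem cov_hyper (ε : ℕ → ℝ) (hε : ∀ n, 0 < ε n) : ∃ S : Scale, ∀ x : @XX S × @XX S,
    Cov ε {l : ℝ | 1 / 2 < l ∧ l < 1 ∧
      Dense (Set.range (fun n : ℕ => (((l : ℂ) • dbl (@TT S)) ^ n) x))} := by
  obtain ⟨s, h1, h2, h3⟩ := exists_scales ε hε
  letI S : Scale := ⟨s, h1, h2⟩
  refine ⟨S, fun x => ?_⟩
  choose c hc using cover_TT x
  refine ⟨fun j => c (Nat.unpair j).1 (Nat.unpair j).2, ?_⟩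
  rintro l ⟨a1, a2, a3⟩
  have hinf : ¬ {k | Visit TT (EE 0 0) x k (l ^ k)}.Finite := fun hf =>
    not_dense_of_finite (norm_EE 0 0) (by linarith) hf a3
  obtain ⟨k, hk, hk'⟩ := Set.Infinite.exists_gt hinf (sc 1)
  obtain ⟨n, b1, b2⟩ := exists_scale hk'.le
  obtain ⟨i, c1, c2, c3⟩ := hc n l k b1 b2 ⟨a1, a2, hk⟩
  refine Set.mem_iUnion.2 ⟨Nat.pair n i, ?_⟩
  simp only [Nat.unpair_pair]
  have := h3 n i c1
  exact ⟨c2, c3.trans (by
    have e : (sc (n + 1) : ℝ) = s (n + 1) := rfl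
    rw [e]; linarith)⟩

/-- a Lipschitz image of a covered set is covered -/
lemma Cov.image {ε : ℕ → ℝ} {B : Set ℝ} (h : Cov ε B) (f : ℝ → ℝ) {L : ℝ} (hL : 0 ≤ L)
    (hf : ∀ u ∈ B, ∀ v ∈ B, |f u - f v| ≤ L * |u - v|) :
    Cov (fun n => 2 * L * ε n) (f '' B) := by
  classical
  obtain ⟨c, hc⟩ := h
  have one : ∀ n, ∃ d, ∀ u ∈ B, u ∈ Set.Icc (c n) (c n + ε n) →
      f u ∈ Set.Icc d (d + 2 * L * ε n) := by
    intro n
    by_cases he : ∃ v ∈ B, v ∈ Set.Icc (c n) (c n + ε n)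
    · obtain ⟨v, hv, v1, v2⟩ := he
      refine ⟨f v - L * ε n, fun u hu hu' => ?_⟩
      have h1 := hf u hu v hv
      have h2 : |u - v| ≤ ε n := by
        rw [abs_le]; constructor <;> linarith [hu'.1, hu'.2]
      have h3 := h1.trans (mul_le_mul_of_nonneg_left h2 hL)
      rw [abs_le] at h3
      constructor <;> linarith [h3.1, h3.2]
    · exact ⟨0, fun u hu hu' => absurd ⟨u, hu, hu'⟩ he⟩
  choose d hd using one
  refine ⟨d, ?_⟩
  rintro _ ⟨u, hu, rfl⟩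
  obtain ⟨n, hn⟩ := Set.mem_iUnion.1 (hc hu)
  exact Set.mem_iUnion.2 ⟨n, hd n u hu hn⟩

lemma Cov.mono {ε : ℕ → ℝ} {A B : Set ℝ} (h : Cov ε B) (hAB : A ⊆ B) : Cov ε A := by
  obtain ⟨c, hc⟩ := h
  exact ⟨c, hAB.trans hc⟩

lemma abs_pow_sub_le {u v : ℝ} (hu : 0 ≤ u) (hu' : u ≤ 1) (hv : 0 ≤ v) (hv' : v ≤ 1) (m : ℕ) :
    |u ^ m - v ^ m| ≤ m * |u - v| := by
  induction m with
  | zero => simp
  | succ m ih =>
    have e : u ^ (m + 1) - v ^ (m + 1) = u * (u ^ m - v ^ m) + v ^ m * (u - v) := by ring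
    have h1 : |u * (u ^ m - v ^ m)| ≤ m * |u - v| := by
      rw [abs_mul, abs_of_nonneg hu]
      exact (mul_le_of_le_one_left (abs_nonneg _) hu').trans ih
    have h2 : |v ^ m * (u - v)| ≤ |u - v| := by
      rw [abs_mul, abs_of_nonneg (pow_nonneg hv m)]
      exact mul_le_of_le_one_left (abs_nonneg _) (pow_le_one₀ hv hv')
    rw [e]
    refine (abs_add_le _ _).trans ?_
    push_cast
    linarith

section
variable {Y : Type} [NormedAddCommGroup Y] [NormedSpace ℂ Y]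

lemma dense_pow (R : Y →L[ℂ] Y) (a : ℂ) (m : ℕ) (p : ℂ → Prop)
    (h : Dense ((Submodule.span ℂ {x : Y | ∃ z : ℂ, p (a * z ^ m) ∧ R x = z • x}) : Set Y)) :
    Dense ((Submodule.span ℂ {x : Y | ∃ z : ℂ, p z ∧ (a • R ^ m) x = z • x}) : Set Y) := by
  refine h.mono (Submodule.span_mono ?_)
  rintro x ⟨z, hz, hx⟩
  refine ⟨a * z ^ m, hz, ?_⟩
  have e : (a • R ^ m) x = a • (R ^ m) x := rfl
  rw [e, pow_eigen R hx, smul_smul]

lemma orbit_pow (R : Y →L[ℂ] Y) (a l μ : ℂ) (m : ℕ) (h : l * a = μ ^ m) (x : Y)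
    (hd : Dense (Set.range (fun n : ℕ => ((l • (a • R ^ m)) ^ n) x))) :
    Dense (Set.range (fun n : ℕ => ((μ • R) ^ n) x)) := by
  refine hd.mono ?_
  rintro _ ⟨n, rfl⟩
  refine ⟨m * n, ?_⟩
  simp only
  rw [smul_smul, h, ← smul_pow, ← pow_mul]

end

theorem no_vector {a b : ℝ} (ha : 0 < a) (hab : a < b) {A : Set ℝ} (hA : A ⊆ Set.Ioo b⁻¹ a⁻¹)
    {ε : ℕ → ℝ} (hε : ∀ n, 0 < ε n) (hn : ¬ Cov ε A) :
    ∃ (X : Type) (_ : NormedAddCommGroup X) (_ : NormedSpace ℂ X) (_ : CompleteSpace X)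
      (_ : TopologicalSpace.SeparableSpace X) (T : X →L[ℂ] X),
      (∀ α : ℝ, a < α → α < b →
        Dense ((Submodule.span ℂ {x : X | ∃ z : ℂ, ‖z‖ < α ∧ T x = z • x}) : Set X) ∧
        Dense ((Submodule.span ℂ {x : X | ∃ z : ℂ, α < ‖z‖ ∧ T x = z • x}) : Set X)) ∧
      ¬ ∃ x : X, ∀ l ∈ A, Dense (Set.range (fun n : ℕ => (((l : ℂ) • T) ^ n) x)) := by
  have hb : 0 < b := ha.trans hab
  obtain ⟨m, hm⟩ := pow_unbounded_of_one_lt (b / a) (show (1 : ℝ) < 2 by norm_num)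
  have hm' : b < a * 2 ^ m := by rwa [div_lt_iff₀ ha, mul_comm] at hm
  have hm0 : m ≠ 0 := by
    rintro rfl
    rw [pow_zero, mul_one] at hm'
    linarith
  have hmr : (0 : ℝ) < m := by exact_mod_cast Nat.pos_of_ne_zero hm0
  obtain ⟨S, hS⟩ := cov_hyper (fun n => a / (2 * m) * ε n) (fun n => by have := hε n; positivity)
  have hsep : TopologicalSpace.SeparableSpace XX := separable_L1
  have hna : ∀ z : ℂ, ‖(a : ℂ) * z ^ m‖ = a * ‖z‖ ^ m := fun z => by
    rw [norm_mul, norm_pow, Complex.norm_real, Real.norm_eq_abs, abs_of_pos ha]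
  refine ⟨XX × XX, inferInstance, inferInstance, inferInstance, inferInstance,
    (a : ℂ) • dbl TT ^ m, fun α h1 h2 => ⟨?_, ?_⟩, ?_⟩
  · refine dense_pow (dbl TT) a m (fun z => ‖z‖ < α) ?_
    have key : ∀ z : ℂ, ‖z‖ ≤ 1 → ‖(a : ℂ) * z ^ m‖ < α := fun z hz => by
      rw [hna]
      have := pow_le_one₀ (n := m) (norm_nonneg z) hz
      nlinarith
    refine dense_dbl TT (dense_ES false) (fun z => ‖(a : ℂ) * z ^ m‖ < α) ?_ ?_
    · intro z hz
      refine key z ?_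
      rw [hz]; norm_num [rho]
    · intro z hz
      refine key z ?_
      rw [hz]; norm_num [rho]
  · refine dense_pow (dbl TT) a m (fun z => α < ‖z‖) ?_
    have key : ∀ z : ℂ, 2 ≤ ‖z‖ → α < ‖(a : ℂ) * z ^ m‖ := fun z hz => by
      rw [hna]
      have := pow_le_pow_left₀ (by norm_num) hz m
      nlinarith
    refine dense_dbl TT (dense_ES true) (fun z => α < ‖(a : ℂ) * z ^ m‖) ?_ ?_
    · intro z hz
      refine key z ?_
      rw [hz]; norm_num [rho]
    · intro z hz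
      refine key z ?_
      rw [hz]; norm_num [rho]
  · rintro ⟨x, hx⟩
    apply hn
    have h1 := (hS x).image (fun u => u ^ m / a) (L := m / a) (by positivity) (by
      rintro u ⟨u1, u2, -⟩ v ⟨v1, v2, -⟩
      have := abs_pow_sub_le (u := u) (v := v) (by linarith) u2.le (by linarith) v2.le m
      rw [← sub_div, abs_div, abs_of_pos ha, div_mul_eq_mul_div]
      exact div_le_div_of_nonneg_right this ha.le)
    have e : (fun n => 2 * (m / a) * (a / (2 * m) * ε n)) = ε := by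
      funext n
      field_simp
    rw [e] at h1
    refine h1.mono fun l hl => ?_
    obtain ⟨l1, l2⟩ := hA hl
    have l0 : 0 < l := (inv_pos.2 hb).trans l1
    have la : 0 < l * a := mul_pos l0 ha
    have hμ : ((l * a) ^ ((m : ℝ)⁻¹)) ^ m = l * a := Real.rpow_inv_natCast_pow la.le hm0
    set μ := (l * a) ^ ((m : ℝ)⁻¹) with hμdef
    have μ0 : 0 ≤ μ := Real.rpow_nonneg la.le _
    have lt1 : l * a < 1 := by
      calc l * a < a⁻¹ * a := mul_lt_mul_of_pos_right l2 ha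
        _ = 1 := inv_mul_cancel₀ ha.ne'
    have gt1 : 1 < l * b := by
      calc 1 = b⁻¹ * b := (inv_mul_cancel₀ hb.ne').symm
        _ < l * b := mul_lt_mul_of_pos_right l1 hb
    refine ⟨μ, ⟨?_, ?_, ?_⟩, ?_⟩
    · by_contra hc
      have h2 : μ ^ m ≤ (1 / 2) ^ m := pow_le_pow_left₀ μ0 (not_lt.1 hc) m
      rw [hμ, one_div, inv_pow] at h2
      have h3 : l * a * 2 ^ m ≤ 1 := by
        calc l * a * 2 ^ m ≤ (2 ^ m)⁻¹ * 2 ^ m := mul_le_mul_of_nonneg_right h2 (by positivity)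
          _ = 1 := inv_mul_cancel₀ (by positivity)
      have h4 : l * b < l * (a * 2 ^ m) := mul_lt_mul_of_pos_left hm' l0
      nlinarith
    · by_contra hc
      have h2 : (1 : ℝ) ≤ μ ^ m := one_le_pow₀ (not_lt.1 hc)
      linarith
    · refine orbit_pow (dbl TT) a l μ m ?_ x (hx l hl)
      exact_mod_cast hμ.symm
    · show μ ^ m / a = l
      rw [hμ]
      field_simp

theorem has_vector {a b : ℝ} (ha : 0 < a) (hab : a < b) {A : Set ℝ} (hA : A ⊆ Set.Ioo b⁻¹ a⁻¹)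
    (hc : ∀ ε : ℕ → ℝ, (∀ n, 0 < ε n) → Cov ε A)
    (X : Type) [AddCommGroup X] [Module ℂ X] [UniformSpace X] [IsUniformAddGroup X]
    [ContinuousSMul ℂ X] [TopologicalSpace.MetrizableSpace X]
    [CompleteSpace X] [TopologicalSpace.SeparableSpace X] (T : X →L[ℂ] X)
    (hH : ∀ α : ℝ, a < α → α < b →
        Dense ((Submodule.span ℂ {x : X | ∃ z : ℂ, ‖z‖ < α ∧ T x = z • x}) : Set X) ∧
        Dense ((Submodule.span ℂ {x : X | ∃ z : ℂ, α < ‖z‖ ∧ T x = z • x}) : Set X)) :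
    ∃ x : X, ∀ l ∈ A, Dense (Set.range (fun n : ℕ => (((l : ℂ) • T) ^ n) x)) := by
  have hb : 0 < b := ha.trans hab
  have hcg : (uniformity X).IsCountablyGenerated :=
    IsUniformAddGroup.uniformity_countably_generated
  letI : PseudoMetricSpace X := UniformSpace.pseudoMetricSpace X
  refine common_vector T (p := b⁻¹) (q := a⁻¹) (inv_pos.2 hb).le (fun l l1 l2 => ?_) hA hc
  have l0 : 0 < l := (inv_pos.2 hb).trans l1
  exact hH l⁻¹ ((lt_inv_comm₀ l0 ha).1 l2) ((inv_lt_comm₀ hb l0).1 l1)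

end Pool.Agent.Lib.MP_b6a3e4_an.Sz
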